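import Pool.Agent.H21.Cun.Fam
import Pool.Agent.H21.BFT.LowA

/-!
Chains; the choice of the class of the parameter modulo the small primes.
-/

set_option autoImplicit false

open Finset Pool.Agent.H90.BFT Pool.Agent.H21.BFT MeasureTheory

namespace Pool.Agent.H21.Cun

/-- There is a chain `q 0 < q 1 < ⋯ < q (l - 1) ≤ x` of elements of `A` with
`q (i + 1) + e = 2 * q i + 1`, that is `q (i + 1) = 2 * q i + 1` for `e = 0` (chains of the first kind)
and `q (i + 1) = 2 * q i - 1` for `e = 2` (chains of the second kind). -/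
def HasChain (A : Set ℕ) (e x l : ℕ) : Prop :=
  ∃ q : ℕ → ℕ, (∀ i < l, q i ∈ A ∧ q i ≤ x) ∧
    ∀ i, i + 1 < l → q i < q (i + 1) ∧ q (i + 1) + e = 2 * q i + 1

lemma exists_r (e w : ℕ) (hw : 2 ≤ w) (α : ℕ → ℕ) :
    ∃ r : ℕ, 8 ≤ r ∧ r ≤ 9 * primorial w ∧ Odd r ∧
      ∀ p : ℕ, p.Prime → p ≤ w → p ≠ 2 →
        (α p + 1 ≡ e [MOD p] → ¬ p ∣ r) ∧ (¬ α p + 1 ≡ e [MOD p] → p ∣ r) := by
  classical
  set c : ℕ → ℕ := fun p => if p = 2 then 1 else if α p + 1 ≡ e [MOD p] then 1 else 0 with hc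
  have hs : ∀ i ∈ Nat.primesLE w, (fun p : ℕ => p) i ≠ 0 := fun i hi =>
    (Nat.mem_primesLE.mp hi).2.ne_zero
  have pp : Set.Pairwise (Nat.primesLE w : Set ℕ) (Function.onFun Nat.Coprime (fun p : ℕ => p)) := by
    intro p hp q hq hpq
    exact (Nat.coprime_primes (Nat.mem_primesLE.mp hp).2 (Nat.mem_primesLE.mp hq).2).mpr hpq
  set k := Nat.chineseRemainderOfFinset c (fun p => p) (Nat.primesLE w) hs pp with hk
  have hk1 : (k : ℕ) < primorial w := by
    rw [primorial_eq_prod_primesLE]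
    exact Nat.chineseRemainderOfFinset_lt_prod c (fun p => p) hs pp
  have hpos := primorial_pos w
  have hmod : ∀ p : ℕ, p.Prime → p ≤ w → (k : ℕ) + 8 * primorial w ≡ c p [MOD p] := by
    intro p hp hpw
    have h1 : (k : ℕ) ≡ c p [MOD p] := k.2 p (Nat.mem_primesLE.mpr ⟨hpw, hp⟩)
    have h2 : 8 * primorial w ≡ 0 [MOD p] :=
      Nat.modEq_zero_iff_dvd.mpr (((Nat.Prime.dvd_primorial_iff hp).mpr hpw).mul_left 8)
    simpa using h1.add h2
  refine ⟨k + 8 * primorial w, by omega, by omega, ?_, ?_⟩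
  · have h1 := hmod 2 Nat.prime_two hw
    have h2 : c 2 = 1 := by simp [hc]
    rw [h2] at h1
    rw [Nat.odd_iff]
    exact h1
  · intro p hp hpw hp2
    have h1 := hmod p hp hpw
    constructor
    · intro h2 h3
      have h4 : c p = 1 := by simp [hc, hp2, h2]
      rw [h4] at h1
      have h5 : 1 ≡ 0 [MOD p] := h1.symm.trans (Nat.modEq_zero_iff_dvd.mpr h3)
      exact hp.one_lt.ne' (Nat.dvd_one.mp (Nat.modEq_zero_iff_dvd.mp h5))
    · intro h2
      have h4 : c p = 0 := by simp [hc, hp2, h2]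
      rw [h4] at h1
      exact Nat.modEq_zero_iff_dvd.mp h1

open Classical in
/-- the chosen class -/
noncomputable def rr (e w : ℕ) (hw : 2 ≤ w) (α : ℕ → ℕ) : ℕ :=
  Classical.choose (exists_r e w hw α)

lemma rr_spec (e w : ℕ) (hw : 2 ≤ w) (α : ℕ → ℕ) :
    8 ≤ rr e w hw α ∧ rr e w hw α ≤ 9 * primorial w ∧ Odd (rr e w hw α) ∧
      ∀ p : ℕ, p.Prime → p ≤ w → p ≠ 2 →
        (α p + 1 ≡ e [MOD p] → ¬ p ∣ rr e w hw α) ∧ (¬ α p + 1 ≡ e [MOD p] → p ∣ rr e w hw α) :=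
  Classical.choose_spec (exists_r e w hw α)

lemma mem_CU_le {r D e l : ℕ} {θ : Fin 1 → ℕ} {M : ℕ} (hr : r ≤ 9 * D) (he : e ≤ 2)
    (hθ : θ ∈ box (Fin 1) M) {u : ℕ} (hu : u ∈ CU r D e l θ) :
    u ≤ 2 ^ l * (10 * (D * M)) + 1 := by
  unfold CU at hu
  rw [mem_image] at hu
  obtain ⟨i, hi, rfl⟩ := hu
  rw [mem_range] at hi
  have h0 := mem_range.mp (Fintype.mem_piFinset.mp hθ 0)
  have hM : 1 ≤ M := by omega
  have e1 : D * θ 0 ≤ D * M := Nat.mul_le_mul_left D h0.le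
  have e3 : 9 * D ≤ 9 * (D * M) := Nat.mul_le_mul_left 9 (Nat.le_mul_of_pos_right D hM)
  have e4 : 2 ^ (i + 1) ≤ 2 ^ l := Nat.pow_le_pow_right (by norm_num) (by omega)
  have e5 : 2 ^ (i + 1) * (r + D * θ 0) ≤ 2 ^ l * (10 * (D * M)) :=
    Nat.mul_le_mul e4 (by omega)
  omega

/-- A successful parameter gives a chain. -/
lemma hasChain_of_success (e w l x : ℕ) (he : e = 0 ∨ e = 2) (α : ℕ → ℕ)
    (hαlt : ∀ p, p.Prime → α p < p) (hα2 : α 2 = 0) (t : ℝ)
    (hx : Real.log x ≤ t) (T : Finset ℕ) (hT : ∀ p : ℕ, p.Prime → w < p → (Th p)⁻¹ ≤ t → p ∈ T)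
    (r : ℕ) (hr8 : 8 ≤ r) (hr : ∀ p : ℕ, p.Prime → p ≤ w → p ≠ 2 →
        (α p + 1 ≡ e [MOD p] → ¬ p ∣ r) ∧ (¬ α p + 1 ≡ e [MOD p] → p ∣ r))
    (θ : Fin 1 → ℕ) (hle : ∀ u ∈ CU r (primorial w) e l θ, u ≤ x)
    (hsucc : ∀ p ∈ T, α p ∉ (CU r (primorial w) e l θ).image (· % p)) :
    HasChain (RS α) e x l := by
  set n := r + primorial w * θ 0 with hn
  have hn8 : 8 ≤ n := by rw [hn]; omega
  refine ⟨fun i => 2 ^ (i + 1) * n + e - 1, fun i hi => ?_, fun i _ => ?_⟩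
  · have h2i : 2 ≤ 2 ^ (i + 1) := by
      have := Nat.pow_le_pow_right (n := 2) (by norm_num) (show 1 ≤ i + 1 by omega)
      simpa using this
    have hbig : 16 ≤ 2 ^ (i + 1) * n := by nlinarith
    simp only
    set u := 2 ^ (i + 1) * n + e - 1 with hu
    have hu1 : u + 1 = 2 ^ (i + 1) * n + e := by omega
    have humem : u ∈ CU r (primorial w) e l θ := by
      unfold CU
      rw [mem_image]
      exact ⟨i, mem_range.mpr hi, rfl⟩
    refine ⟨⟨by omega, ?_⟩, hle u humem⟩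
    intro p hp hpt hmod
    have hlog : Real.log u ≤ t := by
      refine le_trans ?_ hx
      apply Real.log_le_log (by exact_mod_cast (show 0 < u by omega))
      exact_mod_cast hle u humem
    rcases Nat.lt_or_ge w p with h1 | h1
    · have h2 := hT p hp h1 (hpt.trans hlog)
      apply hsucc p h2
      rw [mem_image]
      refine ⟨u, humem, ?_⟩
      have h3 : u % p = α p % p := hmod
      rw [Nat.mod_eq_of_lt (hαlt p hp)] at h3
      exact h3
    · rcases eq_or_ne p 2 with rfl | hp2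
      · rw [hα2] at hmod
        have h3 : u % 2 = 0 := hmod
        have h4 : 2 ^ (i + 1) * n = 2 * (2 ^ i * n) := by rw [pow_succ]; ring
        omega
      · have hd : p ∣ primorial w := (Nat.Prime.dvd_primorial_iff hp).mpr h1
        have h3 : u + 1 ≡ α p + 1 [MOD p] := hmod.add_right 1
        have h4 : u + 1 ≡ 2 ^ (i + 1) * r + e [MOD p] := by
          rw [hu1]
          refine Nat.ModEq.add_right e (Nat.ModEq.mul_left _ ?_)
          have h5 : primorial w * θ 0 ≡ 0 [MOD p] := Nat.modEq_zero_iff_dvd.mpr (hd.mul_right _)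
          simpa [hn] using (Nat.ModEq.refl r).add h5
        have h5 : 2 ^ (i + 1) * r + e ≡ α p + 1 [MOD p] := h4.symm.trans h3
        by_cases h6 : α p + 1 ≡ e [MOD p]
        · have h7 : 2 ^ (i + 1) * r + e ≡ 0 + e [MOD p] := by
            rw [zero_add]; exact h5.trans h6
          have h8 : 2 ^ (i + 1) * r ≡ 0 [MOD p] := Nat.ModEq.add_right_cancel' e h7
          have h9 := Nat.modEq_zero_iff_dvd.mp h8
          rcases (Nat.Prime.dvd_mul hp).mp h9 with h10 | h10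
          · exact hp2 ((Nat.prime_dvd_prime_iff_eq hp Nat.prime_two).mp (hp.dvd_of_dvd_pow h10))
          · exact (hr p hp h1 hp2).1 h6 h10
        · have h7 := (hr p hp h1 hp2).2 h6
          have h8 : 2 ^ (i + 1) * r ≡ 0 [MOD p] := Nat.modEq_zero_iff_dvd.mpr (h7.mul_left _)
          have h9 : 2 ^ (i + 1) * r + e ≡ 0 + e [MOD p] := h8.add_right e
          rw [zero_add] at h9
          exact h6 (h5.symm.trans h9)
  · have h1 : 2 ^ (i + 1 + 1) * n = 2 * (2 ^ (i + 1) * n) := by rw [pow_succ (n := i + 1)]; ring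
    have h2 : 0 < 2 ^ (i + 1) * n := by positivity
    simp only
    rw [h1]
    rcases he with rfl | rfl <;> omega

variable {Ω : Type*} [MeasurableSpace Ω] {P : Measure Ω} [IsProbabilityMeasure P] {a : ℕ → Ω → ℕ}

lemma sum_inv_cube_le (T : Finset ℕ) (w : ℕ) (hw : 1 ≤ w) (h : ∀ p ∈ T, w < p) :
    ∑ p ∈ T, 1 / (p : ℝ) ^ 3 ≤ 1 / (w : ℝ) ^ 2 := by
  have hw' : (0 : ℝ) < w := by exact_mod_cast hw
  calc ∑ p ∈ T, 1 / (p : ℝ) ^ 3 ≤ ∑ p ∈ T, 1 / (w : ℝ) * (1 / (p : ℝ) ^ 2) := by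
        refine Finset.sum_le_sum fun p hp => ?_
        have h1 : (w : ℝ) < p := by exact_mod_cast h p hp
        have hp0 : (0 : ℝ) < p := by linarith
        have e : 1 / (p : ℝ) ^ 3 = 1 / (p : ℝ) * (1 / (p : ℝ) ^ 2) := by
          field_simp
        rw [e]
        refine mul_le_mul_of_nonneg_right ?_ (by positivity)
        exact one_div_le_one_div_of_le hw' h1.le
    _ = 1 / (w : ℝ) * ∑ p ∈ T, 1 / (p : ℝ) ^ 2 := by rw [Finset.mul_sum]
    _ ≤ 1 / (w : ℝ) * (1 / (w : ℝ)) :=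
        mul_le_mul_of_nonneg_left (sum_inv_sq_le T w hw h) (by positivity)
    _ = _ := by field_simp

/-- failure probability for a fixed class of the parameter -/
lemma fail_real (h : Model P a) (r w e l : ℕ) (hr : Odd r) (hl : 0 < l) (t : ℝ)
    (ht : 1 ≤ t) (hw : 2 ≤ w) (hwl : 4 * l ≤ w) (M Y K L : ℕ) (hM0 : 0 < M) (hwY : w ≤ Y) (hM : Y ^ K ≤ M)
    (hL : ∀ θ ∈ box (Fin 1) M, ∀ u ∈ CU r (primorial w) e l θ, u < 2 ^ L)
    (β₀ β₁ β₂ β₃ : ℝ) (hβ₀ : 4 * (l : ℝ) ^ 2 * (1 / (w : ℝ) ^ 2) ≤ β₀)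
    (hβ₁ : Real.log (Real.log Y / Real.log w) + 5 / Real.log w ≤ β₁)
    (hβ₂ : 1 / (w : ℝ) ≤ β₂) (hβ₃ : 2 * ((l : ℝ) ^ 2 * L / Y) ≤ β₃) :
    P.real {ω | ∀ θ ∈ box (Fin 1) M,
      ω ∉ {ω | ∀ p ∈ TT w t, a p ω ∉ (CU r (primorial w) e l θ).image (· % p)}} ≤
    (Real.exp β₀ + 2 * (Y : ℝ) ^ (2 * K) / M + 4 * Real.exp (4 * l * β₁) *
      ((4 * (l : ℝ) ^ 2 * β₂) ^ K / K.factorial)) * Real.exp β₃ +
    1 / M * Real.exp (l * Real.log t + (l : ℝ) ^ 2 * β₂) - 1 := by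
  classical
  set T := TT w t with hT
  have hTall : ∀ p ∈ T, p.Prime ∧ w < p ∧ (Th p)⁻¹ ≤ t := fun p hp => by
    rw [hT, Pool.Agent.H21.BFT.mem_TT] at hp
    exact hp
  have hTp : ∀ p ∈ T, p.Prime := fun p hp => (hTall p hp).1
  have hTw : ∀ p ∈ T, w < p := fun p hp => (hTall p hp).2.1
  have hTt : ∀ p ∈ T, (Th p)⁻¹ ≤ t := fun p hp => (hTall p hp).2.2
  have hTD : ∀ p ∈ T, ¬ p ∣ primorial w := fun p hp hd =>
    absurd ((Nat.Prime.dvd_primorial_iff (hTp p hp)).mp hd) (not_le.mpr (hTw p hp))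
  have hT2 : ∀ p ∈ T, p ≠ 2 := fun p hp => by
    have := hTw p hp
    omega
  have hTN : ∀ p ∈ T, 4 * l ≤ p := fun p hp => hwl.trans (hTw p hp).le
  have hUN : ∀ θ, #(CU r (primorial w) e l θ) ≤ l := fun θ => card_CU_le _ _ e l θ
  have hne : (box (Fin 1) M).Nonempty := by
    refine ⟨fun _ => 0, ?_⟩
    rw [Fintype.mem_piFinset]
    intro i
    exact mem_range.mpr hM0
  have h1 := model_second h T hTp (box (Fin 1) M) hne
    (fun θ p => (CU r (primorial w) e l θ).image (· % p))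
    (fun θ _ p hp => by
      intro c hc
      rw [mem_image] at hc
      obtain ⟨u, _, rfl⟩ := hc
      exact mem_range.mpr (Nat.mod_lt _ (hTp p hp).pos))
    (fun θ _ p hp => by
      have h2 : #((CU r (primorial w) e l θ).image (· % p)) ≤ l := card_image_le.trans (hUN θ)
      have h3 := hTN p hp
      have h4 := (hTp p hp).two_le
      omega)
  refine h1.trans ?_
  have hcardΘ : (#(box (Fin 1) M) : ℝ) ^ 2 = (M : ℝ) ^ 2 := by
    rw [card_box]
    simp only [Fintype.card_fin]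
    push_cast
    ring
  have hM' : (0 : ℝ) < M := by exact_mod_cast hM0
  have h2 : ∑ θ ∈ box (Fin 1) M, ∑ θ' ∈ box (Fin 1) M, ∏ p ∈ T,
      ((1 - #((CU r (primorial w) e l θ).image (· % p) ∪ (CU r (primorial w) e l θ').image (· % p)) /
        (p : ℝ)) / ((1 - #((CU r (primorial w) e l θ).image (· % p)) / (p : ℝ)) *
        (1 - #((CU r (primorial w) e l θ').image (· % p)) / (p : ℝ)))) =
      ∑ θ ∈ box (Fin 1) M, ∑ θ' ∈ box (Fin 1) M, ∏ p ∈ T,
        (1 + cc p (res p (CU r (primorial w) e l θ)) (res p (CU r (primorial w) e l θ'))) := by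
    refine Finset.sum_congr rfl fun θ _ => Finset.sum_congr rfl fun θ' _ =>
      Finset.prod_congr rfl fun p hp => ?_
    have hp0 := (hTp p hp).pos
    unfold cc
    rw [add_sub_cancel, ← Finset.image_union, card_mod_eq hp0, card_mod_eq hp0, card_mod_eq hp0,
      res_union]
  rw [h2, hcardΘ]
  have hD : Even (primorial w) := by
    rw [even_iff_two_dvd]
    exact (Nat.Prime.dvd_primorial_iff Nat.prime_two).mpr hw
  have h3 := pair_total r (primorial w) e l hr hD (primorial_pos w) hl T hTp hT2 hTD hTN M Y K L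
    (by omega) hM hL (Real.log t) β₀ β₁ β₂ β₃ (sum_inv_le_log T hTp t ht hTt)
    ((mul_le_mul_of_nonneg_left (sum_inv_cube_le T w (by omega) hTw) (by positivity)).trans hβ₀)
    ((sum_inv_mid_le T hTp w Y hw hwY hTw).trans hβ₁)
    ((sum_inv_sq_le T w (by omega) hTw).trans hβ₂) hβ₃
  rw [sub_le_sub_iff_right, div_le_iff₀ (by positivity)]
  refine h3.trans (le_of_eq ?_)
  field_simp

end Pool.Agent.H21.Cun
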