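import Pool.Agent.H21.Cun.Local
import Pool.Agent.H21.BFT.Fam

/-!
The family of chains `2 ^ (i + 1) * (r + D s) + e - 1`, and the total of the pair correlations.
-/

set_option autoImplicit false

open Finset Pool.Agent.H21.BFT

namespace Pool.Agent.H21.Cun

/-- the elements of the chain with parameter `θ` -/
def CU (r D e l : ℕ) (θ : Fin 1 → ℕ) : Finset ℕ :=
  (range l).image (fun i => 2 ^ (i + 1) * (r + D * θ 0) + e - 1)

/-- the multipliers modulo `p` -/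
def GG (p l : ℕ) : Finset (ZMod p) := (range l).image (fun i => (2 : ZMod p) ^ (i + 1))

lemma res_CU (r D e l : ℕ) (hr : 0 < r) (p : ℕ) (θ : Fin 1 → ℕ) :
    res p (CU r D e l θ) = FG (GG p l) ((e : ZMod p) - 1) ((r : ZMod p) + D * (θ 0 : ZMod p)) := by
  unfold res CU FG GG
  rw [Finset.image_image, Finset.image_image]
  refine Finset.image_congr fun i _ => ?_
  simp only [Function.comp]
  have h1 : 1 ≤ 2 ^ (i + 1) * (r + D * θ 0) + e := by
    have : 0 < 2 ^ (i + 1) * (r + D * θ 0) := by positivity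
    omega
  rw [Nat.cast_sub h1]
  push_cast
  ring

lemma card_CU_le (r D e l : ℕ) (θ : Fin 1 → ℕ) : #(CU r D e l θ) ≤ l := by
  unfold CU
  refine card_image_le.trans (le_of_eq ?_)
  rw [card_range]

lemma card_GG_le (p l : ℕ) : #(GG p l) ≤ l := by
  unfold GG
  refine card_image_le.trans (le_of_eq ?_)
  rw [card_range]

lemma GG_nonempty (p l : ℕ) (hl : 0 < l) : (GG p l).Nonempty :=
  ⟨_, mem_image.mpr ⟨0, mem_range.mpr hl, rfl⟩⟩

lemma zero_notMem_GG {p : ℕ} [Fact p.Prime] (hp2 : p ≠ 2) (l : ℕ) : (0 : ZMod p) ∉ GG p l := by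
  unfold GG
  rw [mem_image]
  rintro ⟨i, _, h⟩
  have h2 : (2 : ZMod p) = 0 := pow_eq_zero_iff (by omega) |>.mp h
  have h3 : ((2 : ℕ) : ZMod p) = 0 := by exact_mod_cast h2
  rw [ZMod.natCast_eq_zero_iff] at h3
  exact hp2 ((Nat.prime_dvd_prime_iff_eq Fact.out Nat.prime_two).mp h3)

lemma two_pow_mul_inj {i j n n' : ℕ} (hn : Odd n) (hn' : Odd n') (h : 2 ^ i * n = 2 ^ j * n') :
    n = n' := by
  wlog hij : i ≤ j generalizing i j n n'
  · exact (this hn' hn h.symm (by omega)).symm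
  obtain ⟨k, rfl⟩ := Nat.exists_eq_add_of_le hij
  rw [pow_add, mul_assoc] at h
  have h1 := Nat.eq_of_mul_eq_mul_left (by positivity) h
  rcases Nat.eq_zero_or_pos k with rfl | hk
  · simpa using h1
  · exfalso
    have h2 : Even n := by
      rw [h1]
      obtain ⟨m, rfl⟩ : ∃ m, k = m + 1 := ⟨k - 1, by omega⟩
      rw [pow_succ]
      exact ⟨2 ^ m * n', by ring⟩
    exact (Nat.not_even_iff_odd.mpr hn) h2

/-- different chains have no common elements -/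
lemma CU_disjoint (r D e l : ℕ) (hr : Odd r) (hD : Even D) (hD0 : 0 < D) {θ θ' : Fin 1 → ℕ}
    (h : θ ≠ θ') : CU r D e l θ ∩ CU r D e l θ' = ∅ := by
  rw [Finset.eq_empty_iff_forall_notMem]
  intro u hu
  rw [mem_inter] at hu
  unfold CU at hu
  rw [mem_image, mem_image] at hu
  obtain ⟨⟨i, _, hi⟩, ⟨j, _, hj⟩⟩ := hu
  have hr0 : 0 < r := hr.pos
  have h1 : 0 < 2 ^ (i + 1) * (r + D * θ 0) := by positivity
  have h2 : 0 < 2 ^ (j + 1) * (r + D * θ' 0) := by positivity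
  have h3 : 2 ^ (i + 1) * (r + D * θ 0) = 2 ^ (j + 1) * (r + D * θ' 0) := by omega
  have h4 := two_pow_mul_inj (hr.add_even (hD.mul_right _)) (hr.add_even (hD.mul_right _)) h3
  have h5 : D * θ 0 = D * θ' 0 := by omega
  have h6 := Nat.eq_of_mul_eq_mul_left hD0 h5
  apply h
  ext i
  rw [Subsingleton.elim i 0, h6]

/-- the bias at `p` -/
noncomputable def gam (l p : ℕ) : ℝ :=
  ((#(GG p l) : ℝ) - 1) ^ 2 / (((p : ℝ) - 1) * ((p : ℝ) - #(GG p l)) ^ 2)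

lemma gam_nonneg (l p : ℕ) (hp : 2 ≤ p) : 0 ≤ gam l p := by
  unfold gam
  have h1 : (2 : ℝ) ≤ p := by exact_mod_cast hp
  have h2 : (0 : ℝ) ≤ (p : ℝ) - 1 := by linarith
  positivity

lemma gam_le (l p : ℕ) (hl : 0 < l) (hp : 2 ≤ p) (hlp : 4 * l ≤ p) :
    gam l p ≤ 4 * (l : ℝ) ^ 2 * (1 / (p : ℝ) ^ 3) := by
  unfold gam
  have h1 : (2 : ℝ) ≤ p := by exact_mod_cast hp
  have h2 : 4 * (l : ℝ) ≤ p := by exact_mod_cast hlp
  have h3 : (#(GG p l) : ℝ) ≤ l := by exact_mod_cast card_GG_le p l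
  have h4 : (1 : ℝ) ≤ #(GG p l) := by exact_mod_cast (GG_nonempty p l hl).card_pos
  have hp0 : (0 : ℝ) < p := by linarith
  have h5 : 0 < (p : ℝ) - 1 := by linarith
  have h6 : 3 / 4 * (p : ℝ) ≤ (p : ℝ) - #(GG p l) := by linarith
  have h7 : (p : ℝ) / 2 ≤ (p : ℝ) - 1 := by linarith
  have h8 : (p : ℝ) ^ 3 / 4 ≤ ((p : ℝ) - 1) * ((p : ℝ) - #(GG p l)) ^ 2 := by
    calc (p : ℝ) ^ 3 / 4 ≤ (p : ℝ) / 2 * (3 / 4 * (p : ℝ)) ^ 2 := by
          have : 0 < (p : ℝ) ^ 3 := by positivity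
          nlinarith
      _ ≤ _ := mul_le_mul h7 (pow_le_pow_left₀ (by positivity) h6 2) (by positivity) h5.le
  have h9 : ((#(GG p l) : ℝ) - 1) ^ 2 ≤ (l : ℝ) ^ 2 :=
    pow_le_pow_left₀ (by linarith) (by linarith) 2
  calc ((#(GG p l) : ℝ) - 1) ^ 2 / (((p : ℝ) - 1) * ((p : ℝ) - #(GG p l)) ^ 2) ≤
        (l : ℝ) ^ 2 / ((p : ℝ) ^ 3 / 4) :=
        div_le_div₀ (by positivity) h9 (by positivity) h8
    _ = _ := by field_simp

/-- the sum over all pairs for the middle primes -/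
lemma mid_total (r D e l : ℕ) (hr : 0 < r) (hl : 0 < l) (T : Finset ℕ)
    (hT : ∀ p ∈ T, p.Prime) (hT2 : ∀ p ∈ T, p ≠ 2) (hTD : ∀ p ∈ T, ¬ p ∣ D)
    (hTN : ∀ p ∈ T, 4 * l ≤ p) (M Y K : ℕ)
    (hY2 : 2 ≤ Y) (hY : ∀ p ∈ T, p ≤ Y) (hcard : #T ≤ Y) (hM : Y ^ K ≤ M) :
    ∑ θ ∈ box (Fin 1) M, ∑ θ' ∈ box (Fin 1) M,
      ∏ p ∈ T, (1 + cc p (res p (CU r D e l θ)) (res p (CU r D e l θ'))) ≤
    (M : ℝ) ^ 2 * (Real.exp (4 * (l : ℝ) ^ 2 * ∑ p ∈ T, 1 / (p : ℝ) ^ 3) +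
      2 * (Y : ℝ) ^ (2 * K) / M + 4 * Real.exp (4 * l * ∑ p ∈ T, 1 / (p : ℝ)) *
      ((4 * (l : ℝ) ^ 2 * ∑ p ∈ T, 1 / (p : ℝ) ^ 2) ^ K / K.factorial)) := by
  classical
  rw [sum_box_pairs M (fun θ θ' => ∏ p ∈ T, (1 + cc p (res p (CU r D e l θ)) (res p (CU r D e l θ'))))]
  set Q : Finset Nat.Primes := T.subtype Nat.Prime with hQ
  have hQT : Q.map (Function.Embedding.subtype _) = T := by
    rw [hQ, Finset.subtype_map]
    exact Finset.filter_true_of_mem hT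
  have hprod : ∀ f : ℕ → ℝ, ∏ p ∈ T, f p = ∏ p ∈ Q, f (p : ℕ) := by
    intro f
    conv_lhs => rw [← hQT]
    rw [Finset.prod_map]
    rfl
  have hsum : ∀ f : ℕ → ℝ, ∑ p ∈ T, f p = ∑ p ∈ Q, f (p : ℕ) := by
    intro f
    conv_lhs => rw [← hQT]
    rw [Finset.sum_map]
    rfl
  have hmem : ∀ p : Nat.Primes, p ∈ Q → (p : ℕ) ∈ T := fun p hp => Finset.mem_subtype.mp hp
  set c : (p : Nat.Primes) → (Fin 1 ⊕ Fin 1 → ZMod p) → ℝ := fun p y =>
    cc p (FG (GG p l) ((e : ZMod p) - 1) ((r : ZMod p) + D * y (Sum.inl 0)))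
      (FG (GG p l) ((e : ZMod p) - 1) ((r : ZMod p) + D * y (Sum.inr 0))) with hc
  have hAN : ∀ (p : ℕ) (n : ZMod p), #(FG (GG p l) ((e : ZMod p) - 1) n) ≤ l := fun p n =>
    (card_FG_le _ _ n).trans (card_GG_le p l)
  have htr : ∀ (p : Nat.Primes), p ∈ Q → ∀ f : ZMod p → ZMod p → ℝ,
      ∑ y : Fin 1 ⊕ Fin 1 → ZMod p, f ((r : ZMod p) + D * y (Sum.inl 0))
        ((r : ZMod p) + D * y (Sum.inr 0)) = ∑ n, ∑ n', f n n' := by
    intro p hp f
    have : Fact (p : ℕ).Prime := ⟨p.2⟩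
    have hD' : ((D : ℕ) : ZMod p) ≠ 0 := by
      rw [Ne, ZMod.natCast_eq_zero_iff]
      exact hTD p (hmem p hp)
    have h1 := sum_pairs (κ := Fin 1) (p := p) (fun y y' => f ((r : ZMod p) + D * y 0)
      ((r : ZMod p) + D * y' 0))
    rw [h1, ← sum_aff (r : ZMod p) D hD' (fun n => ∑ n', f n n')]
    refine Finset.sum_congr rfl fun y _ => ?_
    exact sum_aff (r : ZMod p) D hD' (fun n' => f ((r : ZMod p) + D * y 0) n')
  have hmain := box_prod_le (ι := Fin 1 ⊕ Fin 1) Q c (fun p => 4 * l / ((p : ℕ) : ℝ))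
    (fun p => 4 * (l : ℝ) ^ 2 / ((p : ℕ) : ℝ) ^ 2) (fun p => gam l p) ?_ ?_ ?_ ?_ ?_ M Y K hY2 ?_ ?_ hM
  · have e1 : ∀ x ∈ box (Fin 1 ⊕ Fin 1) M, ∏ p ∈ T,
        (1 + cc p (res p (CU r D e l fun i => x (Sum.inl i))) (res p (CU r D e l fun i => x (Sum.inr i)))) =
        ∏ p ∈ Q, (1 + c p (fun i => (x i : ZMod p))) := by
      intro x _
      rw [hprod]
      refine Finset.prod_congr rfl fun p _ => ?_
      rw [res_CU r D e l hr, res_CU r D e l hr]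
    rw [Finset.sum_congr rfl e1]
    refine hmain.trans ?_
    have e2 : ∑ p ∈ Q, 4 * (l : ℝ) / ((p : ℕ) : ℝ) = 4 * l * ∑ p ∈ T, 1 / (p : ℝ) := by
      rw [hsum, Finset.mul_sum]
      refine Finset.sum_congr rfl fun p _ => ?_
      ring
    have e3 : ∑ p ∈ Q, 4 * (l : ℝ) ^ 2 / ((p : ℕ) : ℝ) ^ 2 = 4 * (l : ℝ) ^ 2 * ∑ p ∈ T, 1 / (p : ℝ) ^ 2 := by
      rw [hsum (fun p => 1 / (p : ℝ) ^ 2), Finset.mul_sum]
      refine Finset.sum_congr rfl fun p _ => ?_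
      ring
    have e4 : ∑ p ∈ Q, gam l p ≤ 4 * (l : ℝ) ^ 2 * ∑ p ∈ T, 1 / (p : ℝ) ^ 3 := by
      rw [hsum (fun p => 1 / (p : ℝ) ^ 3), Finset.mul_sum]
      exact Finset.sum_le_sum fun p hp => gam_le l p hl p.2.two_le (hTN p (hmem p hp))
    rw [e2, e3]
    simp only [Fintype.card_sum, Fintype.card_fin]
    norm_num only
    have h5 := Real.exp_le_exp.mpr e4
    have h6 : (0 : ℝ) ≤ (M : ℝ) ^ 2 := by positivity
    refine mul_le_mul_of_nonneg_left ?_ h6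
    linarith
  · intro p hp
    have h1 : (0 : ℝ) < ((p : ℕ) : ℝ) := by exact_mod_cast p.2.pos
    rw [div_le_one h1]
    exact_mod_cast hTN p (hmem p hp)
  · intro p hp y
    exact abs_cc_le p.2.pos (hTN p (hmem p hp)) (hAN p _) (hAN p _)
  · intro p _
    exact gam_nonneg l p p.2.two_le
  · intro p hp
    have : Fact (p : ℕ).Prime := ⟨p.2⟩
    have h1 := sum_cc_FG (zero_notMem_GG (hT2 p (hmem p hp)) l) (GG_nonempty p l hl)
      ((e : ZMod p) - 1) (by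
        have h2 := card_GG_le p l
        have h3 := hTN p (hmem p hp)
        have h4 := p.2.pos
        omega)
    rw [hc]
    simp only
    rw [htr p hp (fun n n' => cc p (FG (GG p l) ((e : ZMod p) - 1) n)
      (FG (GG p l) ((e : ZMod p) - 1) n')), h1]
    rfl
  · intro p hp
    have : Fact (p : ℕ).Prime := ⟨p.2⟩
    have h1 := sum_abs_cc_FG (zero_notMem_GG (hT2 p (hmem p hp)) l) (GG_nonempty p l hl)
      ((e : ZMod p) - 1) l (card_GG_le p l) (hTN p (hmem p hp))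
    rw [hc]
    simp only
    rw [htr p hp (fun n n' => |cc p (FG (GG p l) ((e : ZMod p) - 1) n)
      (FG (GG p l) ((e : ZMod p) - 1) n')|)]
    refine h1.trans (le_of_eq ?_)
    have h3 : (0 : ℝ) < ((p : ℕ) : ℝ) := by exact_mod_cast p.2.pos
    simp only [Fintype.card_sum, Fintype.card_fin]
    norm_num only
    field_simp
  · intro p hp
    exact hY p (hmem p hp)
  · have h1 : #(Q.map (Function.Embedding.subtype _)) = #Q := Finset.card_map _
    rw [hQT] at h1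
    exact h1 ▸ hcard

/-- the total over all pairs -/
lemma pair_total (r D e l : ℕ) (hr : Odd r) (hD : Even D) (hD0 : 0 < D) (hl : 0 < l) (T : Finset ℕ)
    (hT : ∀ p ∈ T, p.Prime) (hT2 : ∀ p ∈ T, p ≠ 2) (hTD : ∀ p ∈ T, ¬ p ∣ D)
    (hTN : ∀ p ∈ T, 4 * l ≤ p) (M Y K L : ℕ)
    (hY2 : 2 ≤ Y) (hM : Y ^ K ≤ M)
    (hL : ∀ θ ∈ box (Fin 1) M, ∀ u ∈ CU r D e l θ, u < 2 ^ L)
    (σ β₀ β₁ β₂ β₃ : ℝ) (hσ : ∑ p ∈ T, 1 / (p : ℝ) ≤ σ)
    (hβ₀ : 4 * (l : ℝ) ^ 2 * ∑ p ∈ T, 1 / (p : ℝ) ^ 3 ≤ β₀)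
    (hβ₁ : ∑ p ∈ T with p ≤ Y, 1 / (p : ℝ) ≤ β₁) (hβ₂ : ∑ p ∈ T, 1 / (p : ℝ) ^ 2 ≤ β₂)
    (hβ₃ : 2 * ((l : ℝ) ^ 2 * L / Y) ≤ β₃) :
    ∑ θ ∈ box (Fin 1) M, ∑ θ' ∈ box (Fin 1) M,
      ∏ p ∈ T, (1 + cc p (res p (CU r D e l θ)) (res p (CU r D e l θ'))) ≤
    (M : ℝ) ^ 2 * (Real.exp β₀ + 2 * (Y : ℝ) ^ (2 * K) / M + 4 * Real.exp (4 * l * β₁) *
      ((4 * (l : ℝ) ^ 2 * β₂) ^ K / K.factorial)) * Real.exp β₃ +
    M * Real.exp (l * σ + (l : ℝ) ^ 2 * β₂) := by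
  classical
  set T1 := T.filter (fun p => p ≤ Y) with hT1
  set T2 := T.filter (fun p => ¬ p ≤ Y) with hT2'
  have hT1p : ∀ p ∈ T1, p ∈ T := fun p hp => (mem_filter.mp hp).1
  have hT2p : ∀ p ∈ T2, p ∈ T := fun p hp => (mem_filter.mp hp).1
  have hUN : ∀ θ, #(CU r D e l θ) ≤ l := fun θ => card_CU_le r D e l θ
  set R : (Fin 1 → ℕ) → (Fin 1 → ℕ) → ℝ := fun θ θ' =>
    ∏ p ∈ T, (1 + cc p (res p (CU r D e l θ)) (res p (CU r D e l θ'))) with hR
  set R1 : (Fin 1 → ℕ) → (Fin 1 → ℕ) → ℝ := fun θ θ' =>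
    ∏ p ∈ T1, (1 + cc p (res p (CU r D e l θ)) (res p (CU r D e l θ'))) with hR1
  have hcc0 : ∀ θ θ' p, p ∈ T → 0 ≤ 1 + cc p (res p (CU r D e l θ)) (res p (CU r D e l θ')) := by
    intro θ θ' p hp
    exact one_add_cc_nonneg (hT p hp).pos (hTN p hp) ((card_res_le p _).trans (hUN θ))
      ((card_res_le p _).trans (hUN θ'))
  have hR10 : ∀ θ θ', 0 ≤ R1 θ θ' := fun θ θ' =>
    Finset.prod_nonneg fun p hp => hcc0 θ θ' p (hT1p p hp)
  have hY0 : 0 < Y := by omega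
  -- classification of pairs
  have hpt : ∀ z ∈ (box (Fin 1) M) ×ˢ (box (Fin 1) M), R z.1 z.2 ≤ R1 z.1 z.2 * Real.exp β₃ +
      (if z.1 = z.2 then Real.exp (l * σ + (l : ℝ) ^ 2 * β₂) else 0) := by
    intro z hz
    rw [mem_product] at hz
    have h5 : 0 ≤ R1 z.1 z.2 * Real.exp β₃ := mul_nonneg (hR10 _ _) (Real.exp_pos _).le
    by_cases h2 : z.1 = z.2
    · rw [if_pos h2]
      have h3 := prod_all_le T hT (CU r D e l z.1) (CU r D e l z.2) l (hUN _) (hUN _) hTN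
      have h4 : R z.1 z.2 ≤ Real.exp (l * σ + (l : ℝ) ^ 2 * β₂) := by
        refine h3.trans (Real.exp_le_exp.mpr ?_)
        gcongr
      linarith
    · rw [if_neg h2, add_zero]
      have hdis := CU_disjoint r D e l hr hD hD0 h2
      rw [hR, hR1]
      simp only
      rw [← Finset.prod_filter_mul_prod_filter_not T (fun p => p ≤ Y)]
      refine mul_le_mul_of_nonneg_left ?_ (hR10 z.1 z.2)
      refine (prod_large_le T2 (fun p hp => hT p (hT2p p hp)) Y L hY0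
        (fun p hp => not_le.mp (mem_filter.mp hp).2) _ _ l (hUN z.1) (hUN z.2)
        (fun p hp => hTN p (hT2p p hp)) (hL z.1 hz.1) (hL z.2 hz.2) σ ?_).trans ?_
      · refine le_trans ?_ hσ
        exact Finset.sum_le_sum_of_subset_of_nonneg (filter_subset _ _) fun p _ _ => by positivity
      · apply Real.exp_le_exp.mpr
        rw [hdis, card_empty, Nat.cast_zero, zero_mul, add_zero]
        exact hβ₃
  have hmid := mid_total r D e l hr.pos hl T1 (fun p hp => hT p (hT1p p hp))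
    (fun p hp => hT2 p (hT1p p hp))
    (fun p hp => hTD p (hT1p p hp)) (fun p hp => hTN p (hT1p p hp)) M Y K hY2
    (fun p hp => (mem_filter.mp hp).2) (by
      have : T1 ⊆ Finset.Icc 1 Y := by
        intro p hp
        rw [mem_Icc]
        exact ⟨(hT p (hT1p p hp)).pos, (mem_filter.mp hp).2⟩
      simpa using card_le_card this) hM
  rw [← Finset.sum_product'] at hmid ⊢
  calc ∑ z ∈ (box (Fin 1) M) ×ˢ (box (Fin 1) M), R z.1 z.2 ≤
        ∑ z ∈ (box (Fin 1) M) ×ˢ (box (Fin 1) M), (R1 z.1 z.2 * Real.exp β₃ +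
          (if z.1 = z.2 then Real.exp (l * σ + (l : ℝ) ^ 2 * β₂) else 0)) := Finset.sum_le_sum hpt
    _ = (∑ z ∈ (box (Fin 1) M) ×ˢ (box (Fin 1) M), R1 z.1 z.2) * Real.exp β₃ +
        #(((box (Fin 1) M) ×ˢ (box (Fin 1) M)).filter (fun z => z.1 = z.2)) *
            Real.exp (l * σ + (l : ℝ) ^ 2 * β₂) := by
        rw [Finset.sum_add_distrib, Finset.sum_mul, ← Finset.sum_filter, Finset.sum_const,
          nsmul_eq_mul]
    _ ≤ _ := by
        refine add_le_add ?_ ?_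
        · refine mul_le_mul_of_nonneg_right ?_ (Real.exp_pos _).le
          refine hmid.trans ?_
          have h4 : ∑ p ∈ T1, 1 / (p : ℝ) ^ 2 ≤ β₂ := by
            refine le_trans ?_ hβ₂
            exact Finset.sum_le_sum_of_subset_of_nonneg (filter_subset _ _) fun p _ _ => by positivity
          have h5 : 0 ≤ ∑ p ∈ T1, 1 / (p : ℝ) ^ 2 := Finset.sum_nonneg fun p _ => by positivity
          have h6 : 4 * (l : ℝ) ^ 2 * ∑ p ∈ T1, 1 / (p : ℝ) ^ 3 ≤ β₀ := by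
            refine le_trans ?_ hβ₀
            refine mul_le_mul_of_nonneg_left ?_ (by positivity)
            exact Finset.sum_le_sum_of_subset_of_nonneg (filter_subset _ _) fun p _ _ => by positivity
          gcongr
        · refine mul_le_mul_of_nonneg_right ?_ (Real.exp_pos _).le
          have h4 : #(((box (Fin 1) M) ×ˢ (box (Fin 1) M)).filter (fun z => z.1 = z.2)) ≤ M := by
            have h5 : #(((box (Fin 1) M) ×ˢ (box (Fin 1) M)).filter (fun z => z.1 = z.2)) ≤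
                #(box (Fin 1) M) := by
              refine card_le_card_of_injOn (fun z => z.1) ?_ ?_
              · intro z hz
                rw [mem_coe, mem_filter, mem_product] at hz
                exact hz.1.1
              · intro z hz z' hz' hzz
                rw [mem_coe, mem_filter] at hz hz'
                exact Prod.ext hzz (by rw [← hz.2, ← hz'.2]; exact hzz)
            rw [card_box] at h5
            simpa using h5
          exact_mod_cast h4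

end Pool.Agent.H21.Cun
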