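import Pool.Agent.H21.Cun.LowB

/-!
Existence of long chains up to `e^t` with probability `1 - O((log t)^{-2})`, given that the class of the
prime `2` is `0`.
-/

set_option autoImplicit false

open Finset Pool.Agent.H90.BFT MeasureTheory Filter Topology
open Pool.Agent.H21.BFT (TT ev_log_ge ev_log_le ev_log_sq_le ev_ge exp_two_le exp_le_four log_four_le box
  freeze)

namespace Pool.Agent.H21.Cun

variable {Ω : Type*} [MeasurableSpace Ω] {P : Measure Ω} [IsProbabilityMeasure P] {a : ℕ → Ω → ℕ}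

/-- the length for the lower bound -/
noncomputable def lenLow (ε : ℝ) (t : ℕ) : ℕ := ⌊(1 - ε) * (t / Real.log t)⌋₊

/-- the constant in the error term -/
noncomputable def CL (ε : ℝ) : ℝ := 2048 / ε ^ 2 + 27

theorem low_prob (h : Model P a) (e : ℕ) (he : e = 0 ∨ e = 2) (ε : ℝ)
    (hε : 0 < ε) (hε1 : ε ≤ 1) : ∀ᶠ t : ℕ in atTop,
    P {ω | a 2 ω = 0 ∧ ¬ HasChain (RS fun p => a p ω) e ⌊Real.exp t⌋₊ (lenLow ε t)} ≤
      ENNReal.ofReal (CL ε / Real.log t ^ 2) := by
  classical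
  filter_upwards [ev_log_ge 1000, ev_log_ge (2560 * Real.exp 2721 / (ε / 8)),
    ev_log_ge (32 / (ε / 8 * ε)), ev_log_le (1 / 16) (by norm_num), ev_log_sq_le (1 / 100) (by norm_num),
    ev_log_le (ε / 12) (by positivity),
    ev_ge 11, ev_log_ge (16 / (ε / 8)), ev_log_ge (-2 * Real.log (ε / 16)),
    ev_ge (2 / (ε / 16)), ev_log_ge (46 / ε), ev_ge (3 / (0.5 * (ε / 8)))]
    with t g1 g2 g3 g4 g5 g7 g9 g10 g11 g14 g15 g16
  set lt := Real.log t with hlt
  have ht0 : (0 : ℝ) < t := by linarith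
  have ht1 : 1 ≤ t := by exact_mod_cast (by linarith : (1 : ℝ) ≤ t)
  have hlt0 : 0 < lt := by linarith
  set s := (t : ℝ) / lt with hs
  have hs0 : 0 < s := by positivity
  have hslt : s * lt = t := by rw [hs]; field_simp
  have hs1 : s ≤ t / 1000 := by
    rw [hs]
    apply div_le_div_of_nonneg_left ht0.le (by norm_num) g1
  have hs2 : 100 * lt ≤ s := by
    rw [hs, le_div_iff₀ hlt0]
    nlinarith
  set l := lenLow ε t with hl
  rcases Nat.eq_zero_or_pos l with hl0 | hlpos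
  · have : {ω | a 2 ω = 0 ∧ ¬ HasChain (RS fun p => a p ω) e ⌊Real.exp t⌋₊ l} = ∅ := by
      rw [Set.eq_empty_iff_forall_notMem]
      rintro ω ⟨-, hω⟩
      apply hω
      rw [hl0]
      exact ⟨fun _ => 0, fun i hi => absurd hi (Nat.not_lt_zero i),
        fun i hi => absurd hi (Nat.not_lt_zero _)⟩
    rw [this, measure_empty]
    exact zero_le
  have hlle : (l : ℝ) ≤ (1 - ε) * s := by
    rw [hl]
    unfold lenLow
    apply Nat.floor_le
    have : 0 ≤ 1 - ε := by linarith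
    positivity
  have hls : (l : ℝ) ≤ s := by nlinarith
  set w := ⌊ε / 8 * t⌋₊ with hw
  set K := ⌊s / 40⌋₊ with hK
  set M := ⌊Real.exp ((1 - 2 * (ε / 8)) * t)⌋₊ with hM
  have g14' : 2 ≤ ε / 16 * t := by
    rw [div_le_iff₀ (by positivity)] at g14
    linarith
  have hwle : (w : ℝ) ≤ ε / 8 * t := Nat.floor_le (by positivity)
  have hwge : ε / 16 * t ≤ w := by
    have := Nat.lt_floor_add_one (ε / 8 * (t : ℝ))
    rw [← hw] at this
    linarith
  have hw2 : 2 ≤ w := by exact_mod_cast g14'.trans hwge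
  have hw0 : (0 : ℝ) < w := by linarith
  have hs8 : 16 * s ≤ ε / 8 * t := by
    rw [div_le_iff₀ (by positivity)] at g10
    rw [← hslt]
    nlinarith
  have hwN : 4 * l ≤ w := by
    have h2 : (4 : ℝ) * l ≤ w := by linarith
    exact_mod_cast h2
  have hwt : w ≤ t := by
    have : (w : ℝ) ≤ t := by nlinarith
    exact_mod_cast this
  have hwY : w ≤ t ^ 5 := hwt.trans (Nat.le_self_pow (by norm_num) t)
  have hexpge : (2 : ℝ) ≤ Real.exp ((1 - 2 * (ε / 8)) * t) := by
    refine exp_two_le.trans (Real.exp_le_exp.mpr ?_)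
    nlinarith
  have hMge : Real.exp ((1 - 2 * (ε / 8)) * t) / 2 ≤ M := by
    have := Nat.lt_floor_add_one (Real.exp ((1 - 2 * (ε / 8)) * (t : ℝ)))
    rw [← hM] at this
    linarith
  have hMle : (M : ℝ) ≤ Real.exp ((1 - 2 * (ε / 8)) * t) := Nat.floor_le (Real.exp_pos _).le
  have hM0 : 0 < M := by
    have : (0 : ℝ) < M := by linarith
    exact_mod_cast this
  have hK1 : (K : ℝ) ≤ s / 40 := Nat.floor_le (by positivity)
  have hK2 : s / 80 ≤ K := by
    have := Nat.lt_floor_add_one (s / 40)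
    rw [← hK] at this
    linarith
  have htexp : ∀ n : ℕ, (t : ℝ) ^ n = Real.exp (n * lt) := by
    intro n
    rw [mul_comm, Real.exp_mul, hlt, Real.exp_log ht0, Real.rpow_natCast]
  have hYM : (t ^ 5) ^ K ≤ M := by
    rw [hM]
    apply Nat.le_floor
    push_cast
    rw [← pow_mul, htexp]
    apply Real.exp_le_exp.mpr
    push_cast
    have h1 : (K : ℝ) * lt ≤ t / 40 := by
      calc (K : ℝ) * lt ≤ s / 40 * lt := mul_le_mul_of_nonneg_right hK1 hlt0.le
        _ = t / 40 := by rw [div_mul_eq_mul_div, hslt]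
    nlinarith
  -- size of the elements
  have hD : ((primorial w : ℕ) : ℝ) ≤ Real.exp (1.4 * (ε / 8) * t) := by
    have h1 : ((primorial w : ℕ) : ℝ) ≤ (4 : ℝ) ^ w := by exact_mod_cast primorial_le_four_pow w
    refine h1.trans ?_
    rw [← Real.exp_log (show (0 : ℝ) < 4 by norm_num), ← Real.exp_nat_mul]
    apply Real.exp_le_exp.mpr
    have := log_four_le
    have h2 : 0 ≤ Real.log 4 := Real.log_nonneg (by norm_num)
    calc (w : ℝ) * Real.log 4 ≤ (ε / 8 * t) * 1.4 := mul_le_mul hwle this h2 (by positivity)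
      _ = _ := by ring
  have h2l : (2 : ℝ) ^ l ≤ Real.exp s := by
    have h3 : (2 : ℝ) ^ l ≤ Real.exp 1 ^ l := pow_le_pow_left₀ (by norm_num) exp_two_le l
    refine h3.trans ?_
    rw [← Real.exp_nat_mul, mul_one]
    exact Real.exp_le_exp.mpr hls
  have he2 : e ≤ 2 := by omega
  have hUle : ∀ r : ℕ, r ≤ 9 * primorial w → ∀ θ ∈ box (Fin 1) M, ∀ u ∈ CU r (primorial w) e l θ,
      (u : ℝ) ≤ Real.exp t := by
    intro r hr θ hθ u hu
    have h1 := mem_CU_le (l := l) hr he2 hθ hu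
    have h2 : (u : ℝ) ≤ 2 ^ l * (10 * ((primorial w : ℕ) * M)) + 1 := by exact_mod_cast h1
    refine h2.trans ?_
    have hP1 : (1 : ℝ) ≤ 2 ^ l * (10 * ((primorial w : ℕ) * M)) := by
      have h3 : 1 ≤ 2 ^ l * (10 * (primorial w * M)) := by
        have := primorial_pos w
        have : 0 < 2 ^ l * (10 * (primorial w * M)) := by positivity
        omega
      exact_mod_cast h3
    have h20 : (20 : ℝ) ≤ Real.exp 3 := by
      have h5 : Real.exp 3 = Real.exp 1 * Real.exp 1 * Real.exp 1 := by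
        rw [← Real.exp_add, ← Real.exp_add]; norm_num
      have h6 := Real.exp_one_gt_d9
      rw [h5]
      have h7 : (7.38 : ℝ) ≤ Real.exp 1 * Real.exp 1 := by nlinarith
      nlinarith
    calc 2 ^ l * (10 * (((primorial w : ℕ) : ℝ) * M)) + 1 ≤
          2 ^ l * (10 * ((primorial w : ℕ) * M)) + 2 ^ l * (10 * ((primorial w : ℕ) * M)) := by
          linarith
      _ = 20 * (2 ^ l * ((primorial w : ℕ) * M)) := by ring
      _ ≤ Real.exp 3 * (Real.exp s * (Real.exp (1.4 * (ε / 8) * t) *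
            Real.exp ((1 - 2 * (ε / 8)) * t))) := by gcongr
      _ = Real.exp (3 + (s + (1.4 * (ε / 8) * t + (1 - 2 * (ε / 8)) * t))) := by
          rw [← Real.exp_add, ← Real.exp_add, ← Real.exp_add]
      _ ≤ Real.exp t := by
          apply Real.exp_le_exp.mpr
          rw [div_le_iff₀ (by positivity)] at g16
          linarith
  have hL : ∀ r : ℕ, r ≤ 9 * primorial w → ∀ θ ∈ box (Fin 1) M, ∀ u ∈ CU r (primorial w) e l θ,
      u < 2 ^ (2 * t) := by
    intro r hr θ hθ u hu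
    have h1 := hUle r hr θ hθ u hu
    have h2 : Real.exp t < (2 : ℝ) ^ (2 * t) := by
      have h3 : Real.exp (t : ℝ) = Real.exp 1 ^ t := by rw [← Real.exp_nat_mul, mul_one]
      rw [h3, pow_mul]
      apply pow_lt_pow_left₀ _ (Real.exp_pos 1).le (by omega)
      have := Real.exp_one_lt_d9
      norm_num
      linarith
    have h3 : (u : ℝ) < ((2 ^ (2 * t) : ℕ) : ℝ) := by
      push_cast
      linarith
    exact_mod_cast h3
  -- the bounds
  have hlogw : lt / 2 ≤ Real.log w := by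
    have h1 : Real.log (ε / 16 * t) ≤ Real.log w := Real.log_le_log (by positivity) hwge
    rw [Real.log_mul (by positivity) ht0.ne', ← hlt] at h1
    linarith
  have hlogw0 : 0 < Real.log w := by linarith
  have hβ₁ : Real.log (Real.log ((t ^ 5 : ℕ) : ℝ) / Real.log w) + 5 / Real.log w ≤ 4 := by
    have h1 : Real.log ((t ^ 5 : ℕ) : ℝ) = 5 * lt := by
      push_cast
      rw [Real.log_pow]
      push_cast
      rfl
    rw [h1]
    have h2 : 5 * lt / Real.log w ≤ 10 := by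
      rw [div_le_iff₀ hlogw0]
      linarith
    have h3 : Real.log (5 * lt / Real.log w) ≤ 3 := by
      have h4 : Real.log (5 * lt / Real.log w) ≤ Real.log 10 := Real.log_le_log (by positivity) h2
      refine h4.trans ?_
      rw [Real.log_le_iff_le_exp (by norm_num)]
      have h5 : Real.exp 3 = Real.exp 1 * Real.exp 1 * Real.exp 1 := by
        rw [← Real.exp_add, ← Real.exp_add]; norm_num
      have h6 := Real.exp_one_gt_d9
      rw [h5]
      nlinarith
    have h4 : 5 / Real.log w ≤ 1 := by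
      rw [div_le_iff₀ hlogw0]
      linarith
    linarith
  have hβ₂ : 1 / (w : ℝ) ≤ 2 / (ε / 8 * t) := by
    rw [div_le_div_iff₀ hw0 (by positivity)]
    linarith
  have hβ₃ : 2 * ((l : ℝ) ^ 2 * ((2 * t : ℕ) : ℝ) / ((t ^ 5 : ℕ) : ℝ)) ≤ 4 / (t : ℝ) ^ 2 := by
    have h1 : (l : ℝ) ^ 2 ≤ (t : ℝ) ^ 2 :=
      pow_le_pow_left₀ (Nat.cast_nonneg l) (by linarith) 2
    push_cast
    rw [← mul_div_assoc, div_le_div_iff₀ (by positivity) (by positivity)]
    calc 2 * ((l : ℝ) ^ 2 * (2 * t)) * (t : ℝ) ^ 2 ≤ 2 * ((t : ℝ) ^ 2 * (2 * t)) * (t : ℝ) ^ 2 := by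
          gcongr
      _ = 4 * (t : ℝ) ^ 5 := by ring
  set b := 1024 / (ε * lt) ^ 2 with hb
  have hb0 : 0 ≤ b := by rw [hb]; positivity
  have hb1 : b ≤ 1 / 2 := by
    rw [hb, div_le_iff₀ (by positivity)]
    rw [div_le_iff₀ hε] at g15
    nlinarith
  have hβ₀ : 4 * (l : ℝ) ^ 2 * (1 / (w : ℝ) ^ 2) ≤ b := by
    have h1 : (l : ℝ) ^ 2 ≤ s ^ 2 := pow_le_pow_left₀ (Nat.cast_nonneg l) hls 2
    have h2 : 1 / (w : ℝ) ^ 2 ≤ 1 / (ε / 16 * t) ^ 2 :=
      one_div_le_one_div_of_le (by positivity) (pow_le_pow_left₀ (by positivity) hwge 2)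
    calc 4 * (l : ℝ) ^ 2 * (1 / (w : ℝ) ^ 2) ≤ 4 * s ^ 2 * (1 / (ε / 16 * t) ^ 2) := by gcongr
      _ = b := by
          rw [hb, ← hslt]
          field_simp
          norm_num
  have hnum := numeric (t : ℝ) l K M ε b hε hε1 g1 g2 g3 g4 g5 (by
      change 6 * lt ≤ _
      linarith) (by linarith) hlle hK1 hK2 hMge hb0 hb1
  have hfin : 2 * b + 27 / (t : ℝ) ^ 2 ≤ CL ε / lt ^ 2 := by
    have h1 : 27 / (t : ℝ) ^ 2 ≤ 27 / lt ^ 2 := by
      apply div_le_div_of_nonneg_left (by norm_num) (by positivity)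
      exact pow_le_pow_left₀ hlt0.le (by linarith) 2
    have h2 : CL ε / lt ^ 2 = 2 * b + 27 / lt ^ 2 := by
      unfold CL
      rw [hb]
      field_simp
      ring
    rw [h2]
    linarith
  have hη : ∀ α : ℕ → ℕ, P.real {ω | ∀ θ ∈ box (Fin 1) M,
      ω ∉ {ω | ∀ p ∈ TT w t, a p ω ∉ (CU (rr e w hw2 α) (primorial w) e l θ).image (· % p)}} ≤
      CL ε / lt ^ 2 := by
    intro α
    obtain ⟨hr1, hr2, hr3, hr4⟩ := rr_spec e w hw2 α
    have h1 := fail_real h (rr e w hw2 α) w e l hr3 hlpos t (by linarith) hw2 hwN M (t ^ 5) K (2 * t) hM0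
      hwY hYM (hL _ hr2) b 4 (2 / (ε / 8 * t)) (4 / (t : ℝ) ^ 2) hβ₀ hβ₁ hβ₂ hβ₃
    refine h1.trans (le_trans ?_ hfin)
    push_cast
    exact hnum
  have hTTm : ∀ p, p ∈ TT w (t : ℝ) → p.Prime ∧ w < p ∧ (Th p)⁻¹ ≤ (t : ℝ) := fun p hp => by
    rw [Pool.Agent.H21.BFT.mem_TT] at hp
    exact hp
  have hfr := freeze h (Nat.primesLE w) (TT w t) (fun p hp => (hTTm p hp).1) (by
      rw [Finset.disjoint_left]
      intro p hp hp'
      have h1 := (Nat.mem_primesLE.mp hp).1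
      have h2 := (hTTm p hp').2.1
      omega) (box (Fin 1) M)
    (fun α θ p => (CU (rr e w hw2 α) (primorial w) e l θ).image (· % p)) (CL ε / lt ^ 2) hη
  refine le_trans (measure_mono ?_) hfr
  rintro ω ⟨hω2, hω⟩
  rw [Set.mem_ofPred_eq]
  intro θ hθ hcon
  apply hω
  obtain ⟨hr1, hr2, hr3, hr4⟩ := rr_spec e w hw2
    (ext (Nat.primesLE w) (fun i => a (i : Nat.Primes) ω))
  refine hasChain_of_success e w l _ he (fun p => a p ω) (fun p hp => h.lt p hp ω) hω2 t ?_ (TT w t)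
    (fun p hp h1 h2 => by
      rw [Pool.Agent.H21.BFT.mem_TT]
      exact ⟨hp, h1, h2⟩) _ hr1 ?_ θ ?_ hcon
  · have h1 : ((⌊Real.exp (t : ℝ)⌋₊ : ℕ) : ℝ) ≤ Real.exp t := Nat.floor_le (Real.exp_pos _).le
    have h2 : (0 : ℝ) < ((⌊Real.exp (t : ℝ)⌋₊ : ℕ) : ℝ) := by
      have h3 : 1 ≤ ⌊Real.exp (t : ℝ)⌋₊ := by
        apply Nat.le_floor
        push_cast
        exact Real.one_le_exp ht0.le
      exact_mod_cast h3
    rw [Real.log_le_iff_le_exp h2]
    exact h1
  · intro p hp hpw hp2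
    have h1 := hr4 p hp hpw hp2
    rwa [ext_apply (Nat.primesLE w) a ω p hp (Nat.mem_primesLE.mpr ⟨hpw, hp⟩)] at h1
  · intro u hu
    apply Nat.le_floor
    exact hUle _ hr2 θ hθ u hu

end Pool.Agent.H21.Cun
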