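import Pool.Agent.H21.Cun.Up
import Pool.Agent.H21.Cun.LowC
import Pool.Agent.H21.BFT.Final

/-!
Borel-Cantelli and the limit.
-/

set_option autoImplicit false

open Finset Pool.Agent.H90.BFT MeasureTheory Filter Topology
open Pool.Agent.H21.BFT (bc)

namespace Pool.Agent.H21.Cun

/-- the largest length of a chain of elements of `A` up to `x` -/
noncomputable def longest (A : Set ℕ) (e x : ℕ) : ℕ := sSup {l | HasChain A e x l}

lemma HasChain.mono_left {A : Set ℕ} {e x l l' : ℕ} (h : HasChain A e x l) (hl : l' ≤ l) :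
    HasChain A e x l' := by
  obtain ⟨q, h1, h2⟩ := h
  exact ⟨q, fun i hi => h1 i (by omega), fun i hi => h2 i (by omega)⟩

lemma HasChain.mono_right {A : Set ℕ} {e x x' l : ℕ} (h : HasChain A e x l) (hx : x ≤ x') :
    HasChain A e x' l := by
  obtain ⟨q, h1, h2⟩ := h
  exact ⟨q, fun i hi => ⟨(h1 i hi).1, (h1 i hi).2.trans hx⟩, h2⟩

lemma HasChain.le {A : Set ℕ} {e x l : ℕ} (h : HasChain A e x l) : l ≤ x + 1 := by
  obtain ⟨q, h1, h2⟩ := h
  rcases Nat.eq_zero_or_pos l with rfl | hl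
  · omega
  have h3 : ∀ i < l, i ≤ q i := by
    intro i
    induction i with
    | zero => intro _; omega
    | succ i ih =>
      intro hi
      have h4 := ih (by omega)
      have h5 := (h2 i hi).1
      omega
  have h4 := h3 (l - 1) (by omega)
  have h5 := (h1 (l - 1) (by omega)).2
  omega

lemma hasChain_zero (A : Set ℕ) (e x : ℕ) : HasChain A e x 0 :=
  ⟨fun _ => 0, fun i hi => absurd hi (Nat.not_lt_zero i), fun _ hi => absurd hi (Nat.not_lt_zero _)⟩

lemma hasChain_longest (A : Set ℕ) (e x : ℕ) : HasChain A e x (longest A e x) :=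
  Nat.sSup_mem (s := {l | HasChain A e x l}) ⟨0, hasChain_zero A e x⟩ ⟨x + 1, fun _ hl => HasChain.le hl⟩

lemma le_longest {A : Set ℕ} {e x l : ℕ} (h : HasChain A e x l) : l ≤ longest A e x :=
  le_csSup ⟨x + 1, fun _ hl => HasChain.le hl⟩ h

lemma longest_lt {A : Set ℕ} {e x l : ℕ} (h : ¬ HasChain A e x l) : longest A e x < l := by
  by_contra hcon
  exact h ((hasChain_longest A e x).mono_left (not_lt.mp hcon))

/-- the subsequence for the lower bound -/
noncomputable def tk (n k : ℕ) : ℕ := ⌊Real.exp ((k : ℝ) / ((n : ℝ) + 1))⌋₊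

lemma tendsto_tk (n : ℕ) : Tendsto (tk n) atTop atTop := by
  apply tendsto_nat_floor_atTop.comp
  apply Real.tendsto_exp_atTop.comp
  exact tendsto_natCast_atTop_atTop.atTop_div_const (by positivity)

section ae

variable {Ω : Type*} [MeasurableSpace Ω] {P : Measure Ω} [IsProbabilityMeasure P] {a : ℕ → Ω → ℕ}

lemma ae_low (h : Model P a) (e : ℕ) (he : e = 0 ∨ e = 2) (n : ℕ) :
    ∀ᵐ ω ∂P, a 2 ω = 0 → ∀ᶠ k : ℕ in atTop,
      HasChain (RS fun p => a p ω) e ⌊Real.exp (tk n k)⌋₊ (lenLow (1 / ((n : ℝ) + 1)) (tk n k)) := by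
  have hn : (0 : ℝ) < (n : ℝ) + 1 := by positivity
  have hlow := (tendsto_tk n).eventually (low_prob h e he (1 / ((n : ℝ) + 1)) (by positivity)
    (by rw [div_le_one (by positivity)]; linarith [(Nat.cast_nonneg n : (0 : ℝ) ≤ n)]))
  have hC0 : 0 < CL (1 / ((n : ℝ) + 1)) := by unfold CL; positivity
  have h1 := bc (P := P) (fun k => {ω | a 2 ω = 0 ∧ ¬ HasChain (RS fun p => a p ω) e
    ⌊Real.exp (tk n k)⌋₊ (lenLow (1 / ((n : ℝ) + 1)) (tk n k))})
    (CL (1 / ((n : ℝ) + 1)) * (4 * ((n : ℝ) + 1) ^ 2)) (by positivity) (by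
      filter_upwards [hlow, eventually_ge_atTop (2 * (n + 1)), eventually_ge_atTop 1] with k g1 g2 g3
      refine g1.trans (ENNReal.ofReal_le_ofReal ?_)
      have g2' : 2 * ((n : ℝ) + 1) ≤ k := by exact_mod_cast g2
      have g3' : (1 : ℝ) ≤ k := by exact_mod_cast g3
      have hk : 2 ≤ (k : ℝ) / ((n : ℝ) + 1) := by
        rw [le_div_iff₀ hn]
        exact g2'
      have h2 : Real.exp ((k : ℝ) / ((n : ℝ) + 1)) / 2 ≤ (tk n k : ℝ) := by
        have h3 := Nat.lt_floor_add_one (Real.exp ((k : ℝ) / ((n : ℝ) + 1)))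
        have h4 : (4 : ℝ) ≤ Real.exp ((k : ℝ) / ((n : ℝ) + 1)) := by
          have h5 : Real.exp 2 ≤ Real.exp ((k : ℝ) / ((n : ℝ) + 1)) := Real.exp_le_exp.mpr hk
          have h6 : Real.exp 2 = Real.exp 1 * Real.exp 1 := by rw [← Real.exp_add]; norm_num
          nlinarith [Pool.Agent.H21.BFT.exp_two_le]
        have h5 : ((⌊Real.exp ((k : ℝ) / ((n : ℝ) + 1))⌋₊ : ℕ) : ℝ) = (tk n k : ℝ) := rfl
        rw [h5] at h3
        linarith
      have h3 : (k : ℝ) / (2 * ((n : ℝ) + 1)) ≤ Real.log (tk n k) := by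
        have h4 : Real.log (Real.exp ((k : ℝ) / ((n : ℝ) + 1)) / 2) ≤ Real.log (tk n k) :=
          Real.log_le_log (by positivity) h2
        rw [Real.log_div (Real.exp_pos _).ne' (by norm_num), Real.log_exp] at h4
        have h5 := Real.log_two_lt_d9
        have h6 : (k : ℝ) / (2 * ((n : ℝ) + 1)) = (k : ℝ) / ((n : ℝ) + 1) / 2 := by
          field_simp
        rw [h6]
        linarith
      have h4 : 0 < (k : ℝ) / (2 * ((n : ℝ) + 1)) := by positivity
      have h5 : ((k : ℝ) / (2 * ((n : ℝ) + 1))) ^ 2 ≤ Real.log (tk n k) ^ 2 :=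
        pow_le_pow_left₀ h4.le h3 2
      calc CL (1 / ((n : ℝ) + 1)) / Real.log (tk n k) ^ 2 ≤
            CL (1 / ((n : ℝ) + 1)) / ((k : ℝ) / (2 * ((n : ℝ) + 1))) ^ 2 :=
            div_le_div_of_nonneg_left hC0.le (by positivity) h5
        _ = _ := by field_simp; norm_num)
  filter_upwards [h1] with ω hω hω2
  filter_upwards [hω] with k hk
  by_contra hcon
  exact hk ⟨hω2, hcon⟩

lemma ae_up (h : Model P a) (e : ℕ) (he : e ≤ 2) (n : ℕ) :
    ∀ᵐ ω ∂P, ∀ᶠ t : ℕ in atTop,
      ¬ HasChain (RS fun p => a p ω) e ⌊Real.exp t⌋₊ (lenUp (1 / ((n : ℝ) + 1)) t) := by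
  have h1 := bc (P := P) _ 1 (by norm_num) (up_prob h e he (1 / ((n : ℝ) + 1)) (by positivity)
    (by rw [div_le_one (by positivity)]; linarith [(Nat.cast_nonneg n : (0 : ℝ) ≤ n)]))
  filter_upwards [h1] with ω hω
  filter_upwards [hω] with t ht
  exact ht

end ae

/-- the deterministic passage to the limit -/
lemma tendsto_of_bounds (A : Set ℕ) (e : ℕ)
    (hlow : ∀ n : ℕ, ∀ᶠ k : ℕ in atTop,
      HasChain A e ⌊Real.exp (tk n k)⌋₊ (lenLow (1 / ((n : ℝ) + 1)) (tk n k)))
    (hup : ∀ n : ℕ, ∀ᶠ t : ℕ in atTop, ¬ HasChain A e ⌊Real.exp t⌋₊ (lenUp (1 / ((n : ℝ) + 1)) t)) :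
    Tendsto (fun x : ℕ => (longest A e x : ℝ) * Real.log (Real.log x) / Real.log x) atTop
      (𝓝 1) := by
  have hlogx : Tendsto (fun x : ℕ => Real.log (x : ℝ)) atTop atTop :=
    Real.tendsto_log_atTop.comp tendsto_natCast_atTop_atTop
  have hflo : Tendsto (fun x : ℕ => ⌊Real.log (x : ℝ)⌋₊) atTop atTop := tendsto_nat_floor_atTop.comp hlogx
  have hflo1 : Tendsto (fun x : ℕ => ⌊Real.log (x : ℝ)⌋₊ + 1) atTop atTop :=
    (tendsto_add_atTop_nat 1).comp hflo
  -- limits in `u = log x`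
  have hinv : Tendsto (fun u : ℝ => 1 / u) atTop (𝓝 0) := by
    simpa using tendsto_inv_atTop_zero (𝕜 := ℝ)
  have hlog : Tendsto (fun u : ℝ => Real.log u / u) atTop (𝓝 0) := by
    have := Real.isLittleO_log_id_atTop.tendsto_div_nhds_zero
    exact this
  rw [tendsto_order]
  constructor
  · intro b hb
    -- choose `n`
    have h1 : Tendsto (fun n : ℕ => (1 - 1 / ((n : ℝ) + 1)) * Real.exp (-(1 / ((n : ℝ) + 1)))) atTop
        (𝓝 ((1 - 0) * Real.exp (-0))) :=
      (tendsto_const_nhds.sub tendsto_one_div_add_atTop_nhds_zero_nat).mul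
        ((Real.continuous_exp.tendsto _).comp tendsto_one_div_add_atTop_nhds_zero_nat.neg)
    rw [sub_zero, neg_zero, Real.exp_zero, mul_one] at h1
    obtain ⟨n, hn⟩ := ((tendsto_order.mp h1).1 b hb).exists
    have hn1 : (0 : ℝ) < (n : ℝ) + 1 := by positivity
    set ε : ℝ := 1 / ((n : ℝ) + 1) with hε
    have hε0 : 0 < ε := by rw [hε]; positivity
    have hε1 : ε ≤ 1 := by
      rw [hε, div_le_one (by positivity)]; linarith [(Nat.cast_nonneg n : (0 : ℝ) ≤ n)]
    have h2 : Tendsto (fun u : ℝ => (1 - ε) * (Real.exp (-ε) - 1 / u) - Real.log u / u) atTop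
        (𝓝 ((1 - ε) * (Real.exp (-ε) - 0) - 0)) :=
      ((tendsto_const_nhds.sub hinv).const_mul _).sub hlog
    rw [sub_zero, sub_zero] at h2
    have h3 := hlogx.eventually ((tendsto_order.mp h2).1 b hn)
    -- the index `k`
    have hkt : Tendsto (fun x : ℕ => ⌊((n : ℝ) + 1) * Real.log (Real.log (x : ℝ))⌋₊) atTop atTop := by
      apply tendsto_nat_floor_atTop.comp
      exact (Real.tendsto_log_atTop.comp hlogx).const_mul_atTop hn1
    filter_upwards [h3, hkt.eventually (hlow n), hkt.eventually ((tendsto_tk n).eventually_ge_atTop 3),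
      hlogx.eventually_ge_atTop 3, eventually_ge_atTop 1] with x g1 g2 g5 g3 g4
    set u := Real.log (x : ℝ) with hu
    set k := ⌊((n : ℝ) + 1) * Real.log u⌋₊ with hk
    set t := tk n k with ht
    have hu0 : 0 < u := by linarith
    have hlu0 : 0 < Real.log u := Real.log_pos (by linarith)
    have hk1 : (k : ℝ) ≤ ((n : ℝ) + 1) * Real.log u := Nat.floor_le (by positivity)
    have hk2 : ((n : ℝ) + 1) * Real.log u < k + 1 := Nat.lt_floor_add_one _
    have hk3 : (k : ℝ) / ((n : ℝ) + 1) ≤ Real.log u := by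
      rw [div_le_iff₀ hn1]; linarith
    have hk4 : Real.log u - ε ≤ (k : ℝ) / ((n : ℝ) + 1) := by
      rw [le_div_iff₀ hn1, sub_mul]
      have : ε * ((n : ℝ) + 1) = 1 := by rw [hε]; field_simp
      linarith
    have htu : (t : ℝ) ≤ u := by
      have h5 : (t : ℝ) ≤ Real.exp ((k : ℝ) / ((n : ℝ) + 1)) := Nat.floor_le (Real.exp_pos _).le
      refine h5.trans ?_
      rw [← Real.le_log_iff_exp_le hu0]
      exact hk3
    have htu2 : u * Real.exp (-ε) - 1 ≤ t := by
      have h5 : Real.exp ((k : ℝ) / ((n : ℝ) + 1)) < (t : ℝ) + 1 := Nat.lt_floor_add_one _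
      have h6 : Real.exp (Real.log u - ε) ≤ Real.exp ((k : ℝ) / ((n : ℝ) + 1)) :=
        Real.exp_le_exp.mpr hk4
      rw [sub_eq_add_neg, Real.exp_add, Real.exp_log hu0] at h6
      linarith
    have ht3 : (3 : ℝ) ≤ t := by exact_mod_cast g5
    have hlt0 : 0 < Real.log t := Real.log_pos (by linarith)
    have hx0 : (0 : ℝ) < x := by exact_mod_cast g4
    have hxt : ⌊Real.exp (t : ℝ)⌋₊ ≤ x := by
      have h5 : ((⌊Real.exp (t : ℝ)⌋₊ : ℕ) : ℝ) ≤ Real.exp t := Nat.floor_le (Real.exp_pos _).le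
      have h6 : Real.exp t ≤ x := by
        rw [← Real.exp_log hx0]
        exact Real.exp_le_exp.mpr htu
      exact_mod_cast h5.trans h6
    have h5 := le_longest (g2.mono_right hxt)
    have h6 : (1 - ε) * (t / Real.log t) - 1 ≤ (longest A e x : ℝ) := by
      have h7 : (1 - ε) * (t / Real.log t) < lenLow ε t + 1 := Nat.lt_floor_add_one _
      have h8 : (lenLow ε t : ℝ) ≤ longest A e x := (Nat.cast_le (α := ℝ)).mpr h5
      linarith
    refine g1.trans_le ?_
    rw [le_div_iff₀ hu0]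
    have h9 : ((1 - ε) * (Real.exp (-ε) - 1 / u) - Real.log u / u) * u =
        (1 - ε) * (u * Real.exp (-ε) - 1) - Real.log u := by
      field_simp
    rw [h9]
    have h10 : 0 ≤ 1 - ε := by linarith
    have h11 : (1 - ε) * (u * Real.exp (-ε) - 1) ≤ (1 - ε) * (t / Real.log t) * Real.log u := by
      have h12 : (t : ℝ) ≤ t / Real.log t * Real.log u := by
        rw [div_mul_eq_mul_div, le_div_iff₀ hlt0]
        exact mul_le_mul_of_nonneg_left (Real.log_le_log (by linarith) htu) (by linarith)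
      calc (1 - ε) * (u * Real.exp (-ε) - 1) ≤ (1 - ε) * (t / Real.log t * Real.log u) :=
            mul_le_mul_of_nonneg_left (by linarith) h10
        _ = _ := by ring
    calc (1 - ε) * (u * Real.exp (-ε) - 1) - Real.log u ≤
          ((1 - ε) * (t / Real.log t) - 1) * Real.log u := by
          rw [sub_mul, one_mul]; linarith
      _ ≤ _ := mul_le_mul_of_nonneg_right h6 hlu0.le
  · intro b hb
    have h1 : Tendsto (fun n : ℕ => (1 + 1 / ((n : ℝ) + 1))) atTop (𝓝 (1 + 0)) :=
      tendsto_const_nhds.add tendsto_one_div_add_atTop_nhds_zero_nat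
    rw [add_zero] at h1
    obtain ⟨n, hn⟩ := ((tendsto_order.mp h1).2 b hb).exists
    set ε : ℝ := 1 / ((n : ℝ) + 1) with hε
    have hε0 : 0 < ε := by rw [hε]; positivity
    have h2 : Tendsto (fun u : ℝ => (1 + ε) * (1 + 1 / u) + Real.log u / u) atTop
        (𝓝 ((1 + ε) * (1 + 0) + 0)) :=
      ((tendsto_const_nhds.add hinv).const_mul _).add hlog
    rw [add_zero, add_zero, mul_one] at h2
    have h3 := hlogx.eventually ((tendsto_order.mp h2).2 b hn)
    filter_upwards [h3, hflo1.eventually (hup n), hlogx.eventually_ge_atTop 3,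
      eventually_ge_atTop 1] with x g1 g2 g3 g4
    set u := Real.log (x : ℝ) with hu
    set t := ⌊u⌋₊ + 1 with ht
    have hu0 : 0 < u := by linarith
    have htu : (t : ℝ) ≤ u + 1 := by
      rw [ht]; push_cast
      have := Nat.floor_le hu0.le
      linarith
    have htu2 : u < t := by
      rw [ht]; push_cast
      exact Nat.lt_floor_add_one u
    have hlu0 : 0 < Real.log u := Real.log_pos (by linarith)
    have hlt0 : 0 < Real.log t := Real.log_pos (by linarith)
    have hlogle : Real.log u ≤ Real.log t := Real.log_le_log hu0 htu2.le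
    have hx0 : (0 : ℝ) < x := by exact_mod_cast g4
    have hxt : x ≤ ⌊Real.exp (t : ℝ)⌋₊ := by
      apply Nat.le_floor
      rw [← Real.exp_log hx0]
      exact Real.exp_le_exp.mpr htu2.le
    have h5 := longest_lt (fun hcon => g2 (HasChain.mono_right hcon hxt))
    have h6 : (longest A e x : ℝ) ≤ (1 + ε) * (t / Real.log t) + 1 := by
      have h7 : ((⌊(1 + ε) * (t / Real.log t)⌋₊ : ℕ) : ℝ) ≤
          (1 + ε) * (t / Real.log t) := Nat.floor_le (by positivity)
      have h8 : (longest A e x : ℝ) ≤ lenUp ε t := (Nat.cast_le (α := ℝ)).mpr h5.le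
      have h9 : (lenUp ε t : ℝ) = ((⌊(1 + ε) * (t / Real.log t)⌋₊ : ℕ) : ℝ) + 1 := by
        unfold lenUp
        push_cast
        rfl
      linarith
    refine lt_of_le_of_lt ?_ g1
    rw [div_le_iff₀ hu0]
    have h9 : ((1 + ε) * (1 + 1 / u) + Real.log u / u) * u =
        (1 + ε) * (u + 1) + Real.log u := by
      field_simp
    rw [h9]
    have h11 : (1 + ε) * (t / Real.log t) * Real.log u ≤ (1 + ε) * (u + 1) := by
      have h12 : t / Real.log t * Real.log u ≤ (t : ℝ) := by
        rw [div_mul_eq_mul_div, div_le_iff₀ hlt0]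
        exact mul_le_mul_of_nonneg_left hlogle (by linarith)
      calc (1 + ε) * (t / Real.log t) * Real.log u =
            (1 + ε) * (t / Real.log t * Real.log u) := by ring
        _ ≤ (1 + ε) * (u + 1) := mul_le_mul_of_nonneg_left (by linarith) (by positivity)
    calc (longest A e x : ℝ) * Real.log u ≤
          ((1 + ε) * (t / Real.log t) + 1) * Real.log u :=
          mul_le_mul_of_nonneg_right h6 hlu0.le
      _ ≤ _ := by rw [add_mul]; linarith

/-- an unbounded length -/
lemma exists_long (A : Set ℕ) (e : ℕ)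
    (h : Tendsto (fun x : ℕ => (longest A e x : ℝ) * Real.log (Real.log x) / Real.log x) atTop
      (𝓝 1)) (k : ℕ) : ∃ x, HasChain A e x k := by
  have hlogx : Tendsto (fun x : ℕ => Real.log (x : ℝ)) atTop atTop :=
    Real.tendsto_log_atTop.comp tendsto_natCast_atTop_atTop
  have hlog : Tendsto (fun u : ℝ => Real.log u / u) atTop (𝓝 0) := by
    have := Real.isLittleO_log_id_atTop.tendsto_div_nhds_zero
    exact this
  have h1 := (tendsto_order.mp h).1 (1 / 2) (by norm_num)
  have h2 : ∀ᶠ x : ℕ in atTop, Real.log (Real.log x) / Real.log x < 1 / (2 * ((k : ℝ) + 1)) :=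
    hlogx.eventually ((tendsto_order.mp hlog).2 _ (by positivity))
  obtain ⟨x, g1, g2, g3⟩ := (h1.and (h2.and (hlogx.eventually_ge_atTop 3))).exists
  refine ⟨x, (hasChain_longest A e x).mono_left ?_⟩
  by_contra hcon
  have h3 : (longest A e x : ℝ) ≤ k := by exact_mod_cast (not_le.mp hcon).le
  have h4 : 0 ≤ Real.log (Real.log x) / Real.log x := by
    have : 0 < Real.log (Real.log x) := Real.log_pos (by linarith)
    positivity
  have h5 : (longest A e x : ℝ) * Real.log (Real.log x) / Real.log x ≤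
      k * (1 / (2 * ((k : ℝ) + 1))) := by
    rw [mul_div_assoc]
    exact mul_le_mul h3 g2.le h4 (Nat.cast_nonneg k)
  have h6 : (k : ℝ) * (1 / (2 * ((k : ℝ) + 1))) ≤ 1 / 2 := by
    have hk : (0 : ℝ) ≤ k := Nat.cast_nonneg k
    rw [mul_one_div, div_le_div_iff₀ (by positivity) (by norm_num)]
    linarith
  linarith

/-- if the class of `2` is `1` there is no chain of two elements -/
lemma longest_le_one {α : ℕ → ℕ} (h2 : α 2 = 1) {e : ℕ} (he : e = 0 ∨ e = 2) (x : ℕ) :
    longest (RS α) e x ≤ 1 := by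
  by_contra hcon
  obtain ⟨q, h3, h4⟩ := (hasChain_longest (RS α) e x).mono_left (show 2 ≤ longest (RS α) e x by omega)
  have h5 := (h3 1 (by norm_num)).1
  have h6 := (h4 0 (by norm_num)).2
  apply h5.2 2 Nat.prime_two
  · have h7 : (Th 2)⁻¹ = 2 := by
      unfold Th
      have : Nat.primesLE 2 = {2} := by decide
      rw [this, Finset.prod_singleton]
      norm_num
    rw [h7]
    have h8 : Real.log ((8 : ℕ) : ℝ) ≤ Real.log (q 1) := by
      apply Real.log_le_log (by norm_num)
      exact_mod_cast h5.1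
    refine le_trans ?_ h8
    have h9 : ((8 : ℕ) : ℝ) = 2 ^ 3 := by norm_num
    rw [h9, Real.log_pow]
    have := Real.log_two_gt_d9
    push_cast
    linarith
  · rw [h2]
    change q 1 % 2 = 1 % 2
    rw [zero_add] at h6
    rcases he with rfl | rfl <;> omega

end Pool.Agent.H21.Cun
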