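import Pool.Agent.H21.BFT.Local

/-!
The pair correlation at one prime for the sets `c + n G`.
-/

set_option autoImplicit false

open Finset Pool.Agent.H21.BFT

namespace Pool.Agent.H21.Cun

/-- the set `c + n G` -/
def FG {p : ℕ} (G : Finset (ZMod p)) (c n : ZMod p) : Finset (ZMod p) := G.image (fun g => g * n + c)

lemma FG_zero {p : ℕ} {G : Finset (ZMod p)} (hG : G.Nonempty) (c : ZMod p) : FG G c 0 = {c} := by
  unfold FG
  ext a
  simp only [mem_image, mul_zero, zero_add, mem_singleton]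
  exact ⟨fun ⟨_, _, h⟩ => h.symm, fun h => ⟨_, hG.choose_spec, h.symm⟩⟩

lemma card_FG_le {p : ℕ} (G : Finset (ZMod p)) (c n : ZMod p) : #(FG G c n) ≤ #G := card_image_le

lemma card_FG {p : ℕ} [Fact p.Prime] (G : Finset (ZMod p)) (c : ZMod p) {n : ZMod p} (hn : n ≠ 0) :
    #(FG G c n) = #G := by
  unfold FG
  refine card_image_of_injective _ ?_
  intro g g' h
  simp only [add_left_inj] at h
  exact mul_right_cancel₀ hn h

lemma mem_FG {p : ℕ} [Fact p.Prime] {G : Finset (ZMod p)} (h0 : (0 : ZMod p) ∉ G) {c a n : ZMod p}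
    (hac : a ≠ c) : a ∈ FG G c n ↔ n ∈ G.image (fun g => g⁻¹ * (a - c)) := by
  unfold FG
  rw [mem_image, mem_image]
  constructor
  · rintro ⟨g, hg, h⟩
    have hg0 : g ≠ 0 := fun h' => h0 (h' ▸ hg)
    refine ⟨g, hg, ?_⟩
    rw [← h]
    field_simp
    ring
  · rintro ⟨g, hg, h⟩
    have hg0 : g ≠ 0 := fun h' => h0 (h' ▸ hg)
    refine ⟨g, hg, ?_⟩
    rw [← h]
    field_simp
    ring

lemma mem_FG_self {p : ℕ} [Fact p.Prime] {G : Finset (ZMod p)} (h0 : (0 : ZMod p) ∉ G)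
    (hG : G.Nonempty) {c n : ZMod p} : c ∈ FG G c n ↔ n = 0 := by
  constructor
  · intro h
    unfold FG at h
    rw [mem_image] at h
    obtain ⟨g, hg, h⟩ := h
    have hg0 : g ≠ 0 := fun h' => h0 (h' ▸ hg)
    have h1 : g * n = 0 := by
      have := congrArg (· - c) h
      simpa using this
    rcases mul_eq_zero.mp h1 with h2 | h2
    · exact absurd h2 hg0
    · exact h2
  · rintro rfl
    rw [FG_zero hG]
    exact mem_singleton_self c

lemma card_inv_image {p : ℕ} [Fact p.Prime] {G : Finset (ZMod p)}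
    {a c : ZMod p} (hac : a ≠ c) : #(G.image (fun g => g⁻¹ * (a - c))) = #G := by
  refine card_image_of_injective _ ?_
  intro g g' h
  exact inv_injective (mul_right_cancel₀ (sub_ne_zero.mpr hac) h)

/-- the weight -/
noncomputable def XX {p : ℕ} (a : ZMod p) (A : Finset (ZMod p)) : ℝ :=
  if a ∈ A then 0 else (1 - #A / (p : ℝ))⁻¹

lemma cc_eq_sum_XX {p : ℕ} [NeZero p] (A A' : Finset (ZMod p)) :
    cc p A A' = (1 / (p : ℝ)) * ∑ a, XX a A * XX a A' - 1 := by
  have hp : 0 < p := Nat.pos_of_ne_zero (NeZero.ne p)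
  have hp' : (0 : ℝ) < p := by exact_mod_cast hp
  unfold cc
  congr 1
  have h1 : ∑ a, XX a A * XX a A' =
      ((1 - #A / (p : ℝ))⁻¹ * (1 - #A' / (p : ℝ))⁻¹) * ((p : ℝ) - #(A ∪ A')) := by
    have h2 : ∀ a, XX a A * XX a A' =
        if a ∈ A ∪ A' then 0 else (1 - #A / (p : ℝ))⁻¹ * (1 - #A' / (p : ℝ))⁻¹ := by
      intro a
      simp only [XX, mem_union]
      by_cases h1 : a ∈ A <;> by_cases h2 : a ∈ A' <;> simp [h1, h2]
    rw [Finset.sum_congr rfl fun a _ => h2 a, ← Finset.sum_filter_add_sum_filter_not univ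
      (fun a => a ∈ A ∪ A')]
    rw [Finset.sum_congr rfl (fun a ha => if_pos (mem_filter.mp ha).2),
      Finset.sum_congr rfl (g := fun _ => (1 - #A / (p : ℝ))⁻¹ * (1 - #A' / (p : ℝ))⁻¹)
        (fun a ha => if_neg (mem_filter.mp ha).2)]
    rw [Finset.sum_const_zero, zero_add, Finset.sum_const, nsmul_eq_mul, mul_comm]
    congr 1
    have h3 : #(univ.filter fun a => ¬ a ∈ A ∪ A') + #(A ∪ A') = p := by
      have h4 := Finset.card_filter_add_card_filter_not (s := (univ : Finset (ZMod p)))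
        (fun a => a ∈ A ∪ A')
      rw [Finset.card_univ, ZMod.card] at h4
      have h5 : univ.filter (fun a => a ∈ A ∪ A') = A ∪ A' := by
        ext a; simp
      rw [h5] at h4
      omega
    have h4 : (#(univ.filter fun a => ¬ a ∈ A ∪ A') : ℝ) + #(A ∪ A') = p := by
      exact_mod_cast h3
    linarith
  rw [h1, ← mul_inv, div_eq_mul_inv]
  field_simp

section

variable {p : ℕ} [Fact p.Prime] {G : Finset (ZMod p)} (h0 : (0 : ZMod p) ∉ G) (hG : G.Nonempty)
  (c : ZMod p)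

include h0 hG

lemma sum_XX_self : ∑ n, XX c (FG G c n) = ((p : ℝ) - 1) * (1 - #G / (p : ℝ))⁻¹ := by
  have h1 : ∀ n ∈ (univ : Finset (ZMod p)), XX c (FG G c n) =
      (if n = 0 then 0 else (1 - #G / (p : ℝ))⁻¹) := by
    intro n _
    unfold XX
    by_cases hn : n = 0
    · rw [if_pos hn, if_pos ((mem_FG_self h0 hG).mpr hn)]
    · rw [if_neg hn, if_neg (fun h => hn ((mem_FG_self h0 hG).mp h)), card_FG G c hn]
  rw [Finset.sum_congr rfl h1, ← Finset.sum_filter_add_sum_filter_not univ (fun n : ZMod p => n = 0),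
    Finset.sum_congr rfl (fun n hn => if_pos (mem_filter.mp hn).2),
    Finset.sum_congr rfl (g := fun _ => (1 - #G / (p : ℝ))⁻¹)
      (fun n hn => if_neg (mem_filter.mp hn).2), Finset.sum_const_zero, zero_add, Finset.sum_const,
    nsmul_eq_mul]
  congr 1
  have h2 : univ.filter (fun n : ZMod p => ¬ n = 0) = univ.erase 0 := by
    ext n; simp
  rw [h2, card_erase_of_mem (mem_univ _), card_univ, ZMod.card, Nat.cast_sub (Fact.out : p.Prime).one_lt.le]
  push_cast
  ring

lemma sum_XX_ne {a : ZMod p} (hac : a ≠ c) : ∑ n, XX a (FG G c n) =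
    (1 - 1 / (p : ℝ))⁻¹ + ((p : ℝ) - 1 - #G) * (1 - #G / (p : ℝ))⁻¹ := by
  rw [← Finset.add_sum_erase univ _ (mem_univ (0 : ZMod p))]
  congr 1
  · unfold XX
    rw [FG_zero hG, if_neg (by simpa using hac), card_singleton]
    norm_num
  · set B := G.image (fun g => g⁻¹ * (a - c)) with hB
    have hB0 : (0 : ZMod p) ∉ B := by
      rw [hB, mem_image]
      rintro ⟨g, hg, h⟩
      rcases mul_eq_zero.mp h with h2 | h2
      · exact h0 (inv_eq_zero.mp h2 ▸ hg)
      · exact hac (sub_eq_zero.mp h2)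
    have hcB : #B = #G := card_inv_image hac
    have h1 : ∀ n ∈ (univ : Finset (ZMod p)).erase 0, XX a (FG G c n) =
        (if n ∈ B then 0 else (1 - #G / (p : ℝ))⁻¹) := by
      intro n hn
      unfold XX
      by_cases hnB : n ∈ B
      · rw [if_pos hnB, if_pos ((mem_FG h0 hac).mpr hnB)]
      · rw [if_neg hnB, if_neg (fun h => hnB ((mem_FG h0 hac).mp h)),
          card_FG G c (Finset.ne_of_mem_erase hn)]
    rw [Finset.sum_congr rfl h1,
      ← Finset.sum_filter_add_sum_filter_not _ (fun n : ZMod p => n ∈ B),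
      Finset.sum_congr rfl (fun n hn => if_pos (mem_filter.mp hn).2),
      Finset.sum_congr rfl (g := fun _ => (1 - #G / (p : ℝ))⁻¹)
        (fun n hn => if_neg (mem_filter.mp hn).2), Finset.sum_const_zero, zero_add,
      Finset.sum_const, nsmul_eq_mul]
    congr 1
    have h2 : (univ.erase (0 : ZMod p)).filter (fun n => ¬ n ∈ B) = (univ.erase 0) \ B := by
      ext n; simp
    have h3 : B ⊆ univ.erase (0 : ZMod p) := by
      intro n hn
      exact mem_erase.mpr ⟨fun h => hB0 (h ▸ hn), mem_univ _⟩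
    have h4 := card_le_card h3
    rw [h2, card_sdiff_of_subset h3]
    rw [card_erase_of_mem (mem_univ _), card_univ, ZMod.card, hcB] at h4 ⊢
    have hp1 := (Fact.out : p.Prime).one_lt.le
    rw [Nat.cast_sub h4, Nat.cast_sub hp1]
    push_cast
    ring

/-- the total pair correlation at `p` -/
lemma sum_cc_FG (hlt : #G < p) : ∑ n, ∑ n', cc p (FG G c n) (FG G c n') =
    (((#G : ℝ) - 1) ^ 2 / (((p : ℝ) - 1) * ((p : ℝ) - #G) ^ 2)) * (p : ℝ) ^ 2 := by
  have hp1 : (1 : ℝ) < p := by exact_mod_cast (Fact.out : p.Prime).one_lt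
  have hg : (#G : ℝ) < p := by exact_mod_cast hlt
  have hcard : Fintype.card (ZMod p) = p := ZMod.card p
  have h2 : ∀ a : ZMod p, (∑ n, XX a (FG G c n)) * ∑ n', XX a (FG G c n') =
      ∑ n, ∑ n', XX a (FG G c n) * XX a (FG G c n') := fun a => Finset.sum_mul_sum _ _ _ _
  have h1 : ∑ n, ∑ n', cc p (FG G c n) (FG G c n') =
      (1 / (p : ℝ)) * (∑ a : ZMod p, (∑ n, XX a (FG G c n)) * ∑ n', XX a (FG G c n')) -
        (p : ℝ) ^ 2 := by
    rw [Finset.sum_congr rfl fun a _ => h2 a]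
    have h3 : ∑ a : ZMod p, ∑ n, ∑ n', XX a (FG G c n) * XX a (FG G c n') =
        ∑ n, ∑ n', ∑ a : ZMod p, XX a (FG G c n) * XX a (FG G c n') := by
      rw [Finset.sum_comm]
      exact Finset.sum_congr rfl fun y _ => Finset.sum_comm
    have h4 : (p : ℝ) ^ 2 = ∑ _n : ZMod p, ∑ _n' : ZMod p, (1 : ℝ) := by
      simp only [Finset.sum_const, Finset.card_univ, hcard, nsmul_eq_mul, mul_one]
      ring
    rw [h3, h4, Finset.mul_sum, ← Finset.sum_sub_distrib]
    refine Finset.sum_congr rfl fun n _ => ?_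
    rw [Finset.mul_sum, ← Finset.sum_sub_distrib]
    refine Finset.sum_congr rfl fun n' _ => ?_
    exact cc_eq_sum_XX _ _
  rw [h1, ← Finset.add_sum_erase univ _ (mem_univ c), sum_XX_self h0 hG c,
    Finset.sum_congr rfl (g := fun _ => ((1 - 1 / (p : ℝ))⁻¹ + ((p : ℝ) - 1 - #G) * (1 - #G / (p : ℝ))⁻¹) *
      ((1 - 1 / (p : ℝ))⁻¹ + ((p : ℝ) - 1 - #G) * (1 - #G / (p : ℝ))⁻¹))
      (fun a ha => by rw [sum_XX_ne h0 hG c (Finset.ne_of_mem_erase ha)]), Finset.sum_const,
    card_erase_of_mem (mem_univ _), card_univ, hcard, nsmul_eq_mul,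
    Nat.cast_sub (Fact.out : p.Prime).one_lt.le]
  push_cast
  have e1 : (p : ℝ) ≠ 0 := by linarith
  have e2 : (p : ℝ) - 1 ≠ 0 := by linarith
  have e3 : (p : ℝ) - #G ≠ 0 := by linarith
  have e4 : (1 - (#G : ℝ) / p)⁻¹ = p / (p - #G) := by
    rw [inv_eq_iff_eq_inv, inv_div]
    field_simp
  have e5 : (1 - 1 / (p : ℝ))⁻¹ = p / (p - 1) := by
    rw [inv_eq_iff_eq_inv, inv_div]
    field_simp
  rw [e4, e5]
  field_simp
  ring

/-- the number of pairs of elements -/
lemma sum_inter_FG (N : ℕ) (hN : #G ≤ N) :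
    ∑ n, ∑ n', (#(FG G c n ∩ FG G c n') : ℝ) ≤ p * (N : ℝ) ^ 2 := by
  have hN1 : 1 ≤ N := hG.card_pos.trans_le hN
  have h1 : ∀ a : ZMod p, #(univ.filter (fun n => a ∈ FG G c n)) ≤ N := by
    intro a
    by_cases hac : a = c
    · subst hac
      have : univ.filter (fun n => a ∈ FG G a n) = {0} := by
        ext n
        rw [mem_filter, mem_FG_self h0 hG, mem_singleton]
        simp
      rw [this, card_singleton]
      exact hN1
    · have : univ.filter (fun n => a ∈ FG G c n) = G.image (fun g => g⁻¹ * (a - c)) := by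
        ext n
        rw [mem_filter, mem_FG h0 hac]
        simp
      rw [this, card_inv_image hac]
      exact hN
  have h2 : ∀ n n', (#(FG G c n ∩ FG G c n') : ℝ) =
      ∑ a : ZMod p, (if a ∈ FG G c n then (1 : ℝ) else 0) * (if a ∈ FG G c n' then (1 : ℝ) else 0) := by
    intro n n'
    rw [Finset.card_eq_sum_ones]
    push_cast
    have e : FG G c n ∩ FG G c n' = univ.filter (fun a => a ∈ FG G c n ∧ a ∈ FG G c n') := by
      ext a; simp
    rw [e, Finset.sum_filter]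
    refine Finset.sum_congr rfl fun a _ => ?_
    by_cases h3 : a ∈ FG G c n <;> by_cases h4 : a ∈ FG G c n' <;> simp [h3, h4]
  have h3 : ∑ n, ∑ n', (#(FG G c n ∩ FG G c n') : ℝ) =
      ∑ a : ZMod p, (#(univ.filter (fun n => a ∈ FG G c n)) : ℝ) ^ 2 := by
    rw [Finset.sum_congr rfl fun n _ => Finset.sum_congr rfl fun n' _ => h2 n n']
    have h3 : ∀ n, ∑ n', ∑ a : ZMod p, (if a ∈ FG G c n then (1 : ℝ) else 0) *
        (if a ∈ FG G c n' then (1 : ℝ) else 0) =
        ∑ a : ZMod p, ∑ n', (if a ∈ FG G c n then (1 : ℝ) else 0) *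
        (if a ∈ FG G c n' then (1 : ℝ) else 0) := fun n => Finset.sum_comm
    rw [Finset.sum_congr rfl fun n _ => h3 n, Finset.sum_comm]
    refine Finset.sum_congr rfl fun a _ => ?_
    rw [← Finset.sum_mul_sum, sq]
    have h4 : ∑ n, (if a ∈ FG G c n then (1 : ℝ) else 0) = #(univ.filter (fun n => a ∈ FG G c n)) := by
      rw [← Finset.sum_filter, Finset.sum_const, nsmul_eq_mul, mul_one]
    rw [h4]
  rw [h3]
  calc ∑ a : ZMod p, (#(univ.filter (fun n => a ∈ FG G c n)) : ℝ) ^ 2 ≤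
        ∑ _a : ZMod p, (N : ℝ) ^ 2 := by
        refine Finset.sum_le_sum fun a _ => ?_
        refine pow_le_pow_left₀ (Nat.cast_nonneg _) ?_ 2
        exact_mod_cast h1 a
    _ = _ := by rw [Finset.sum_const, card_univ, ZMod.card, nsmul_eq_mul]

lemma sum_abs_cc_FG (N : ℕ) (hN : #G ≤ N) (hNp : 4 * N ≤ p) :
    ∑ n, ∑ n', |cc p (FG G c n) (FG G c n')| ≤ 4 * (N : ℝ) ^ 2 := by
  have hp := (Fact.out : p.Prime).pos
  have hp' : (0 : ℝ) < p := by exact_mod_cast hp
  have hA : ∀ n, #(FG G c n) ≤ N := fun n => (card_FG_le G c n).trans hN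
  have h1 : ∀ n n', |cc p (FG G c n) (FG G c n')| ≤
      2 / (p : ℝ) * #(FG G c n ∩ FG G c n') + 2 * ((N : ℝ) / p) ^ 2 := by
    intro y y'
    refine (abs_cc_le_inter hp hNp (hA y) (hA y')).trans ?_
    have h2 : (#(FG G c y) : ℝ) / p ≤ N / p := by
      gcongr
      exact_mod_cast hA y
    have h3 : (#(FG G c y') : ℝ) / p ≤ N / p := by
      gcongr
      exact_mod_cast hA y'
    have h4 : (#(FG G c y) : ℝ) / p * (#(FG G c y') / p) ≤ ((N : ℝ) / p) ^ 2 := by
      rw [sq]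
      exact mul_le_mul h2 h3 (by positivity) (by positivity)
    have e : 2 / (p : ℝ) * #(FG G c y ∩ FG G c y') = 2 * (#(FG G c y ∩ FG G c y') / (p : ℝ)) := by ring
    rw [e]
    linarith
  calc ∑ n, ∑ n', |cc p (FG G c n) (FG G c n')| ≤
        ∑ n : ZMod p, ∑ n' : ZMod p, (2 / (p : ℝ) * #(FG G c n ∩ FG G c n') + 2 * ((N : ℝ) / p) ^ 2) :=
        Finset.sum_le_sum fun y _ => Finset.sum_le_sum fun y' _ => h1 y y'
    _ = 2 / (p : ℝ) * ∑ n, ∑ n', (#(FG G c n ∩ FG G c n') : ℝ) +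
        2 * ((N : ℝ) / p) ^ 2 * (p : ℝ) ^ 2 := by
        simp only [Finset.sum_add_distrib, Finset.mul_sum, Finset.sum_const, Finset.card_univ,
          ZMod.card, nsmul_eq_mul]
        ring
    _ ≤ 2 / (p : ℝ) * (p * (N : ℝ) ^ 2) + 2 * ((N : ℝ) / p) ^ 2 * (p : ℝ) ^ 2 := by
        have h2 := sum_inter_FG h0 hG c N hN
        have := mul_le_mul_of_nonneg_left h2 (show (0 : ℝ) ≤ 2 / (p : ℝ) by positivity)
        linarith
    _ = _ := by
        field_simp
        ring

end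

lemma sum_aff {p : ℕ} [Fact p.Prime] (r D : ZMod p) (hD : D ≠ 0) (f : ZMod p → ℝ) :
    ∑ y : Fin 1 → ZMod p, f (r + D * y 0) = ∑ n, f n := by
  refine Fintype.sum_bijective (fun y : Fin 1 → ZMod p => r + D * y 0) ⟨?_, ?_⟩ _ _ fun _ => rfl
  · intro y y' h
    simp only [add_right_inj] at h
    have := mul_left_cancel₀ hD h
    ext i
    rw [Subsingleton.elim i 0, this]
  · intro n
    refine ⟨fun _ => D⁻¹ * (n - r), ?_⟩
    simp only
    rw [← mul_assoc, mul_inv_cancel₀ hD]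
    ring

end Pool.Agent.H21.Cun
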