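import Pool.Agent.H21.Cun.Det
import Pool.Agent.H21.BFT.UpC

/-!
No very long chains up to `e^t`, with probability `1 - O(t^{-2})`.
-/

set_option autoImplicit false

open Finset Pool.Agent.H90.BFT MeasureTheory Filter Topology
open Pool.Agent.H21.BFT (avoid_prob_le ev_log_ge ev_log_le ev_log_sq_le ev_ge exp_two_le exp_le_four
  ev_loglog_le exists_Th_inv_le sum_inv_ge sum_inv_le_log)

namespace Pool.Agent.H21.Cun

lemma chain_form {q : ℕ → ℕ} {e l : ℕ} (he : e ≤ 2) (h0 : 8 ≤ q 0)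
    (h : ∀ i, i + 1 < l → q i < q (i + 1) ∧ q (i + 1) + e = 2 * q i + 1) :
    ∀ i < l, q i + 1 = 2 ^ i * (q 0 + 1 - e) + e := by
  intro i
  induction i with
  | zero => intro _; rw [pow_zero]; omega
  | succ i ih =>
    intro hi
    have h1 := ih (by omega)
    have h2 := (h i hi).2
    have h3 : 2 ^ (i + 1) * (q 0 + 1 - e) = 2 * (2 ^ i * (q 0 + 1 - e)) := by rw [pow_succ]; ring
    omega

/-- the elements with index at least `i0` of the chain with parameter `n` -/
def CV (e i0 l n : ℕ) : Finset ℕ := (Finset.Ico i0 l).image (fun i => 2 ^ i * n + e - 1)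

lemma card_CV (e i0 l n : ℕ) (hn : 1 ≤ n) : #(CV e i0 l n) = l - i0 := by
  unfold CV
  rw [card_image_of_injOn, Nat.card_Ico]
  intro i _ j _ h
  simp only at h
  have h1 : 0 < 2 ^ i * n := by positivity
  have h2 : 0 < 2 ^ j * n := by positivity
  have h3 : 2 ^ i * n = 2 ^ j * n := by omega
  have h4 := Nat.eq_of_mul_eq_mul_right (by omega) h3
  exact Nat.pow_right_injective (le_refl 2) h4

variable {Ω : Type*} [MeasurableSpace Ω] {P : Measure Ω} [IsProbabilityMeasure P] {a : ℕ → Ω → ℕ}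

/-- first moment bound -/
lemma first_moment (h : Model P a) (e : ℕ) (he : e ≤ 2) (C : ℝ) (hC1 : 1 ≤ C)
    (hC : ∀ n : ℕ, 2 ≤ n → (Th n)⁻¹ ≤ C * Real.log n) (l i0 x Y Z L : ℕ) (hl : 1 ≤ l)
    (hY : 0 < Y) (hZ : (Z : ℝ) ≤ Real.exp (i0 / (2 * C)))
    (hx : x < 2 ^ L) (S : ℝ) (hS : S ≤ ∑ p ∈ (Nat.primesLE Z).filter (fun p => Y < p), 1 / (p : ℝ)) :
    P {ω | HasChain (RS fun p => a p ω) e x l} ≤ ENNReal.ofReal (((x : ℝ) + 2) *
      Real.exp (-(((l - i0 : ℕ) : ℝ) * S) + ((l - i0 : ℕ) : ℝ) ^ 2 * L / Y)) := by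
  classical
  set T := (Nat.primesLE Z).filter (fun p => Y < p) with hT
  have hTp : ∀ p ∈ T, p.Prime := fun p hp => (Nat.mem_primesLE.mp (mem_filter.mp hp).1).2
  have hTY : ∀ p ∈ T, Y < p := fun p hp => (mem_filter.mp hp).2
  set I := (range (x + 2)).filter
    (fun n : ℕ => 1 ≤ n ∧ ∀ u ∈ CV e i0 l n, u ≤ x) with hI
  set ρ := Real.exp (-(((l - i0 : ℕ) : ℝ) * S) + ((l - i0 : ℕ) : ℝ) ^ 2 * L / Y) with hρ
  have hcov : {ω | HasChain (RS fun p => a p ω) e x l} ⊆
      ⋃ n ∈ I, {ω | ∀ p ∈ T, a p ω ∉ (CV e i0 l n).image (· % p)} := by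
    rintro ω ⟨q, hq1, hq2⟩
    have h0 : 8 ≤ q 0 := (hq1 0 hl).1.1
    have h0x : q 0 ≤ x := (hq1 0 hl).2
    have hform := chain_form he h0 hq2
    set n := q 0 + 1 - e with hn
    have hn7 : 7 ≤ n := by omega
    have hel : ∀ u ∈ CV e i0 l n, u ∈ RS (fun p => a p ω) ∧ u ≤ x ∧ 2 ^ i0 ≤ u := by
      intro u hu
      unfold CV at hu
      rw [mem_image] at hu
      obtain ⟨i, hi, rfl⟩ := hu
      rw [Finset.mem_Ico] at hi
      have h1 := hform i hi.2
      have h2 : 2 ^ i * n + e - 1 = q i := by omega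
      rw [h2]
      refine ⟨(hq1 i hi.2).1, (hq1 i hi.2).2, ?_⟩
      have h3 : 2 ^ i0 ≤ 2 ^ i := Nat.pow_le_pow_right (by norm_num) hi.1
      have h4 : 2 ^ i * 7 ≤ 2 ^ i * n := Nat.mul_le_mul_left _ hn7
      have h5 : 0 < 2 ^ i := by positivity
      omega
    simp only [Set.mem_iUnion]
    refine ⟨n, ?_, ?_⟩
    · rw [hI, mem_filter, mem_range]
      exact ⟨by omega, by omega, fun u hu => (hel u hu).2.1⟩
    · rw [Set.mem_ofPred_eq]
      intro p hp hcon
      rw [mem_image] at hcon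
      obtain ⟨u, hu, hup⟩ := hcon
      obtain ⟨h2, -, h4⟩ := hel u hu
      apply h2.2 p (hTp p hp)
      · have hpZ : p ≤ Z := (Nat.mem_primesLE.mp (mem_filter.mp hp).1).1
        refine (hC p (hTp p hp).two_le).trans ?_
        have hp0 : (0 : ℝ) < p := by exact_mod_cast (hTp p hp).pos
        have hC0 : 0 < C := by linarith
        have h5 : Real.log p ≤ i0 / (2 * C) := by
          rw [Real.log_le_iff_le_exp hp0]
          exact le_trans (by exact_mod_cast hpZ) hZ
        have h6 : C * Real.log p ≤ i0 / 2 := by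
          calc C * Real.log p ≤ C * (i0 / (2 * C)) := by gcongr
            _ = i0 / 2 := by field_simp
        refine h6.trans ?_
        have h7 : Real.log ((2 : ℝ) ^ i0) ≤ Real.log u := by
          apply Real.log_le_log (by positivity)
          exact_mod_cast h4
        rw [Real.log_pow] at h7
        refine le_trans ?_ h7
        have h8 := Real.log_two_gt_d9
        have h9 : (0 : ℝ) ≤ i0 := Nat.cast_nonneg i0
        nlinarith
      · have h5 : a p ω < p := h.lt p (hTp p hp) ω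
        change u % p = a p ω % p
        rw [Nat.mod_eq_of_lt h5]
        exact hup
  refine (measure_mono hcov).trans ((measure_biUnion_finset_le _ _).trans ?_)
  have hone : ∀ n ∈ I, P {ω | ∀ p ∈ T, a p ω ∉ (CV e i0 l n).image (· % p)} ≤ ENNReal.ofReal ρ := by
    intro n hn
    rw [hI, mem_filter] at hn
    rw [← ENNReal.ofReal_toReal (measure_ne_top P _)]
    apply ENNReal.ofReal_le_ofReal
    have h1 := avoid_prob_le h T hTp Y L hY hTY (CV e i0 l n)
      (fun u hu => lt_of_le_of_lt (hn.2.2 u hu) hx)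
    refine h1.trans ?_
    rw [card_CV e i0 l n hn.2.1, hρ]
    apply Real.exp_le_exp.mpr
    have h2 : (0 : ℝ) ≤ ((l - i0 : ℕ) : ℝ) := by positivity
    have h3 := mul_le_mul_of_nonneg_left hS h2
    linarith
  refine (Finset.sum_le_sum hone).trans ?_
  rw [Finset.sum_const, nsmul_eq_mul, ENNReal.ofReal_mul (by positivity)]
  gcongr
  have h1 : #I ≤ x + 2 := by
    refine (card_filter_le _ _).trans (le_of_eq ?_)
    rw [card_range]
  have h2 : (x : ℝ) + 2 = ((x + 2 : ℕ) : ℝ) := by push_cast; ring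
  rw [h2, ENNReal.ofReal_natCast]
  exact_mod_cast h1

/-- the length for the upper bound -/
noncomputable def lenUp (ε : ℝ) (t : ℕ) : ℕ := ⌊(1 + ε) * (t / Real.log t)⌋₊ + 1

theorem up_prob (h : Model P a) (e : ℕ) (he : e ≤ 2) (ε : ℝ)
    (hε : 0 < ε) (hε1 : ε ≤ 1) : ∀ᶠ t : ℕ in atTop,
    P {ω | HasChain (RS fun p => a p ω) e ⌊Real.exp t⌋₊ (lenUp ε t)} ≤
      ENNReal.ofReal (1 / (t : ℝ) ^ 2) := by
  classical
  obtain ⟨C, hC1, hC⟩ := exists_Th_inv_le
  have hC0 : 0 < C := by linarith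
  set κ : ℕ := ⌈4 / ε⌉₊ with hκ
  have hκ4 : 4 / ε ≤ κ := Nat.le_ceil _
  have hκ1 : (4 : ℝ) ≤ κ := by
    refine le_trans ?_ hκ4
    rw [le_div_iff₀ hε]
    linarith
  have hκ0 : (0 : ℝ) < κ := by linarith
  set C4 : ℝ := Real.log (2 * κ) + Real.log (4 * C) + 1 + Real.log (5 * C) with hC4
  filter_upwards [ev_log_ge 1000, ev_log_sq_le (1 / 100) (by norm_num),
    ev_log_ge (2 * κ), ev_log_ge (2 * κ * (8 * C)), ev_loglog_le (ε / 32) (by positivity),
    ev_log_ge (C4 / (ε / 16)), ev_log_le (ε / 16) (by positivity),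
    ev_ge (16 / ε), ev_ge 11]
    with t g1 g2 g4 g5 g6 g7 g10 g11 g12
  set lt := Real.log t with hlt
  have ht0 : (0 : ℝ) < t := by linarith
  have hlt0 : 0 < lt := by linarith
  set s := (t : ℝ) / lt with hs
  have hs0 : 0 < s := by positivity
  have hslt : s * lt = t := by rw [hs]; field_simp
  have hs2 : 100 * lt ≤ s := by
    rw [hs, le_div_iff₀ hlt0]
    nlinarith
  set l := lenUp ε t with hl
  have hl1' : 1 ≤ l := by rw [hl]; unfold lenUp; omega
  have hl1 : (1 + ε) * s ≤ (l : ℝ) := by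
    have h1 := Nat.lt_floor_add_one ((1 + ε) * s)
    rw [hl]; unfold lenUp
    push_cast
    exact h1.le
  have hlup : (l : ℝ) ≤ (1 + ε) * s + 1 := by
    have h1 : ((⌊(1 + ε) * s⌋₊ : ℕ) : ℝ) ≤ (1 + ε) * s := Nat.floor_le (by positivity)
    rw [hl]; unfold lenUp
    push_cast
    linarith
  have hsl : s ≤ l := by nlinarith
  set i0 := l / κ with hi0
  have hi0le : (i0 : ℝ) ≤ l / κ := Nat.cast_div_le
  have hκ0' : 0 < κ := by exact_mod_cast hκ0
  have hi0ge : (l : ℝ) / (2 * κ) ≤ i0 := by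
    have h1 := Nat.lt_div_mul_add (a := l) hκ0'
    have h2 : (l : ℝ) < (i0 : ℝ) * κ + κ := by exact_mod_cast h1
    have h3 : 2 * (κ : ℝ) ≤ l := by linarith
    rw [div_le_iff₀ (by positivity)]
    linarith
  have hi0l : i0 ≤ l := Nat.div_le_self _ _
  have hlen : (1 + ε / 2) * s ≤ ((l - i0 : ℕ) : ℝ) := by
    rw [Nat.cast_sub hi0l]
    have h1 : (l : ℝ) / κ ≤ ε / 4 * l := by
      rw [div_le_iff₀ hκ0]
      rw [div_le_iff₀ hε] at hκ4
      have : (0 : ℝ) ≤ l := Nat.cast_nonneg l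
      nlinarith
    have h2 : (1 - ε / 4) * ((1 + ε) * s) ≤ (1 - ε / 4) * l :=
      mul_le_mul_of_nonneg_left hl1 (by linarith)
    have h3 : (1 + ε / 2) * s ≤ (1 - ε / 4) * ((1 + ε) * s) := by
      rw [← mul_assoc]
      refine mul_le_mul_of_nonneg_right ?_ hs0.le
      nlinarith
    linarith
  have hi08C : 8 * C ≤ i0 := by
    refine le_trans ?_ hi0ge
    rw [le_div_iff₀ (by positivity)]
    have : 8 * C * (2 * κ) = 2 * κ * (8 * C) := by ring
    rw [this]
    linarith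
  set Z := ⌊Real.exp (i0 / (2 * C))⌋₊ with hZ
  have hZle : (Z : ℝ) ≤ Real.exp (i0 / (2 * C)) := Nat.floor_le (Real.exp_pos _).le
  have hexp2 : 4 ≤ (i0 : ℝ) / (2 * C) := by
    rw [le_div_iff₀ (by positivity)]
    linarith
  have hexp4 : (4 : ℝ) ≤ Real.exp (i0 / (2 * C)) := by
    have h1 : Real.exp 2 ≤ Real.exp (i0 / (2 * C)) := Real.exp_le_exp.mpr (by linarith)
    have h2 : Real.exp 2 = Real.exp 1 * Real.exp 1 := by rw [← Real.exp_add]; norm_num
    nlinarith [exp_two_le]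
  have hZge : Real.exp (i0 / (2 * C)) / 2 ≤ Z := by
    have := Nat.lt_floor_add_one (Real.exp ((i0 : ℝ) / (2 * C)))
    rw [← hZ] at this
    linarith
  have hZ2 : 2 ≤ Z := by
    have : (2 : ℝ) ≤ Z := by linarith
    exact_mod_cast this
  have hlogZ : (i0 : ℝ) / (4 * C) ≤ Real.log Z := by
    have hZ0 : (0 : ℝ) < Z := by linarith
    rw [Real.le_log_iff_exp_le hZ0]
    refine le_trans ?_ hZge
    have e : (i0 : ℝ) / (2 * C) = i0 / (4 * C) + i0 / (4 * C) := by field_simp; ring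
    have h1 : 1 ≤ (i0 : ℝ) / (4 * C) := by
      rw [le_div_iff₀ (by positivity)]
      linarith
    have h2 : 2 ≤ Real.exp ((i0 : ℝ) / (4 * C)) := exp_two_le.trans (Real.exp_le_exp.mpr h1)
    rw [e, Real.exp_add, le_div_iff₀ (by norm_num)]
    exact mul_le_mul_of_nonneg_left h2 (Real.exp_pos _).le
  set Y := t ^ 5 with hY
  have ht1 : 11 ≤ t := by exact_mod_cast g12
  have hY2 : 2 ≤ Y := by
    rw [hY]
    calc 2 ≤ t := by omega
      _ ≤ t ^ 5 := Nat.le_self_pow (by norm_num) t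
  -- the sum over the primes
  set S : ℝ := lt - 2 * Real.log lt - C4 with hS
  have hi0pos : (0 : ℝ) < i0 := by linarith
  have hSle : S ≤ ∑ p ∈ (Nat.primesLE Z).filter (fun p => Y < p), 1 / (p : ℝ) := by
    have h1 : ∑ p ∈ Nat.primesLE Z, 1 / (p : ℝ) =
        ∑ p ∈ (Nat.primesLE Z).filter (fun p => Y < p), 1 / (p : ℝ) +
        ∑ p ∈ (Nat.primesLE Z).filter (fun p => ¬ Y < p), 1 / (p : ℝ) :=
      (Finset.sum_filter_add_sum_filter_not _ _ _).symm
    have h2 : ∑ p ∈ (Nat.primesLE Z).filter (fun p => ¬ Y < p), 1 / (p : ℝ) ≤ Real.log (C * (5 * lt)) := by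
      have hlY : Real.log (Y : ℝ) = 5 * lt := by
        rw [hY]; push_cast
        rw [Real.log_pow]
        push_cast
        rfl
      refine sum_inv_le_log _ (fun p hp => (Nat.mem_primesLE.mp (mem_filter.mp hp).1).2) _ ?_ ?_
      · nlinarith
      · intro p hp
        have hpp := (Nat.mem_primesLE.mp (mem_filter.mp hp).1).2
        have hpY := not_lt.mp (mem_filter.mp hp).2
        refine (hC p hpp.two_le).trans ?_
        rw [← hlY]
        refine mul_le_mul_of_nonneg_left (Real.log_le_log (by exact_mod_cast hpp.pos) ?_) hC0.le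
        exact_mod_cast hpY
    have h3 := sum_inv_ge Z hZ2
    have h4 : Real.log (i0 : ℝ) - Real.log (4 * C) ≤ Real.log (Real.log Z) := by
      rw [← Real.log_div (by linarith) (by positivity)]
      exact Real.log_le_log (by positivity) hlogZ
    have h5 : lt - Real.log lt - Real.log (2 * κ) ≤ Real.log (i0 : ℝ) := by
      have e : lt - Real.log lt - Real.log (2 * κ) = Real.log (s / (2 * κ)) := by
        rw [Real.log_div hs0.ne' (by linarith), hs, Real.log_div ht0.ne' hlt0.ne']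
      rw [e]
      apply Real.log_le_log (by positivity)
      refine le_trans ?_ hi0ge
      exact div_le_div_of_nonneg_right hsl (by linarith)
    have h6 : Real.log (C * (5 * lt)) = Real.log (5 * C) + Real.log lt := by
      rw [← Real.log_mul (by positivity) hlt0.ne']
      congr 1
      ring
    rw [hS, hC4]
    linarith
  have hx : ⌊Real.exp (t : ℝ)⌋₊ < 2 ^ (2 * t) := by
    have h1 : ((⌊Real.exp (t : ℝ)⌋₊ : ℕ) : ℝ) ≤ Real.exp t := Nat.floor_le (Real.exp_pos _).le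
    have h2 : Real.exp t < (2 : ℝ) ^ (2 * t) := by
      have h3 : Real.exp (t : ℝ) = Real.exp 1 ^ t := by rw [← Real.exp_nat_mul, mul_one]
      rw [h3, pow_mul]
      apply pow_lt_pow_left₀ _ (Real.exp_pos 1).le (by omega)
      have := Real.exp_one_lt_d9
      norm_num
      linarith
    have h3 : ((⌊Real.exp (t : ℝ)⌋₊ : ℕ) : ℝ) < ((2 ^ (2 * t) : ℕ) : ℝ) := by
      push_cast
      linarith
    exact_mod_cast h3
  have hfm := first_moment h e he C hC1 hC l i0 ⌊Real.exp (t : ℝ)⌋₊ Y Z (2 * t) hl1' (by omega) hZle hx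
    S hSle
  refine hfm.trans (ENNReal.ofReal_le_ofReal ?_)
  -- numerical part
  set N' : ℝ := ((l - i0 : ℕ) : ℝ) with hN'
  have hN'0 : 0 ≤ N' := by positivity
  have hN'le : N' ≤ t := by
    have h1 : N' ≤ l := by
      rw [hN']
      exact_mod_cast Nat.sub_le l i0
    have h3 : 8 * s ≤ t := by
      rw [← hslt]
      nlinarith
    nlinarith
  have hloss : N' ^ 2 * ((2 * t : ℕ) : ℝ) / (Y : ℝ) ≤ 1 := by
    rw [hY]
    push_cast
    rw [div_le_one (by positivity)]
    have h1 : N' ^ 2 ≤ (t : ℝ) ^ 2 := pow_le_pow_left₀ hN'0 hN'le 2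
    calc N' ^ 2 * (2 * (t : ℝ)) ≤ (t : ℝ) ^ 2 * (2 * t) := by gcongr
      _ ≤ (t : ℝ) ^ 5 := by nlinarith [pow_pos ht0 3, pow_pos ht0 4, pow_pos ht0 5]
  have hS2 : (1 - ε / 8) * lt ≤ S := by
    rw [div_le_iff₀ (by positivity)] at g7
    rw [hS]
    have : Real.log lt ≤ ε / 32 * lt := g6
    linarith
  have hNS : (1 + ε / 4) * t ≤ N' * S := by
    have h1 : 0 ≤ (1 - ε / 8) * lt := by
      have : 0 ≤ 1 - ε / 8 := by linarith
      positivity
    calc (1 + ε / 4) * t ≤ (1 + ε / 2) * (1 - ε / 8) * t := by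
          apply mul_le_mul_of_nonneg_right _ ht0.le
          nlinarith
      _ = (1 + ε / 2) * s * ((1 - ε / 8) * lt) := by rw [← hslt]; ring
      _ ≤ N' * S := mul_le_mul hlen hS2 h1 hN'0
  have hxle : ((⌊Real.exp (t : ℝ)⌋₊ : ℕ) : ℝ) + 2 ≤ Real.exp (1 + t) := by
    have h1 : ((⌊Real.exp (t : ℝ)⌋₊ : ℕ) : ℝ) ≤ Real.exp t := Nat.floor_le (Real.exp_pos _).le
    have h2 : 2 ≤ Real.exp t := exp_two_le.trans (Real.exp_le_exp.mpr (by linarith))
    rw [Real.exp_add]
    nlinarith [exp_two_le]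
  calc (((⌊Real.exp (t : ℝ)⌋₊ : ℕ) : ℝ) + 2) *
        Real.exp (-(N' * S) + N' ^ 2 * ((2 * t : ℕ) : ℝ) / (Y : ℝ)) ≤
        Real.exp (1 + t) * Real.exp (-((1 + ε / 4) * t) + 1) := by
        refine mul_le_mul hxle (Real.exp_le_exp.mpr (by linarith))
          (Real.exp_pos _).le (by positivity)
    _ = Real.exp (2 - ε / 4 * t) := by
        rw [← Real.exp_add]
        congr 1
        ring
    _ ≤ Real.exp (-(2 * lt)) := by
        apply Real.exp_le_exp.mpr
        rw [div_le_iff₀ hε] at g11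
        have : lt ≤ ε / 16 * t := g10
        linarith
    _ = 1 / (t : ℝ) ^ 2 := by
        rw [Real.exp_neg, one_div]
        congr 1
        rw [mul_comm, Real.exp_mul, hlt, Real.exp_log ht0]
        norm_cast

end Pool.Agent.H21.Cun
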